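import Mathlib

/-!
A finite packing theorem (fractional form of the Edmonds-Johnson theorem on joins and cuts,
proved along the lines of Sebo's argument for Seymour's theorem): walks in a finite pseudo-metric
space with a finite list of negative edges, an improvement step by one cut, and compactness.
-/

namespace Pool.Agent.V1190.BeurFin

variable {V I : Type*}

/-- reverse an oriented index -/
def fl (o : I × Bool) : I × Bool := (o.1, !o.2)

@[simp] lemma fl_fst (o : I × Bool) : (fl o).1 = o.1 := rfl
@[simp] lemma fl_snd (o : I × Bool) : (fl o).2 = !o.2 := rfl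
@[simp] lemma fl_fl (o : I × Bool) : fl (fl o) = o := by
  unfold fl; simp

lemma eq_or_fl {o p : I × Bool} (h : o.1 = p.1) : p = o ∨ p = fl o := by
  rcases o with ⟨i, s⟩
  rcases p with ⟨j, t⟩
  simp only at h
  subst h
  unfold fl
  cases s <;> cases t <;> simp

/-- cost of a walk from `u` to `v` through the oriented indices of the list -/
def W (a : I × Bool → V) (z : I → ℝ) (d : V → V → ℝ) : V → List (I × Bool) → V → ℝ
  | u, [], v => d u v
  | u, o :: l, v => d u (a o) - z o.1 + W a z d (a (fl o)) l v

structure Good (a : I × Bool → V) (z : I → ℝ) (d : V → V → ℝ) : Prop where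
  self : ∀ u, d u u = 0
  symm : ∀ u v, d u v = d v u
  tri : ∀ u v w, d u w ≤ d u v + d v w
  pair : ∀ o : I × Bool, d (a o) (a (fl o)) = z o.1
  pot : ∀ e : I → Bool, ∃ F : V → ℝ, (∀ u v, F v - F u ≤ d u v) ∧
    ∀ i, F (a (i, e i)) - F (a (fl (i, e i))) = z i

variable {a : I × Bool → V} {z : I → ℝ} {d : V → V → ℝ}

lemma Good.nonneg (G : Good a z d) (u v : V) : 0 ≤ d u v := by
  have h1 := G.tri u v u
  have h2 := G.symm u v
  have h3 := G.self u
  linarith

lemma Good.z_nonneg (G : Good a z d) (i : I) : 0 ≤ z i := by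
  have := G.nonneg (a (i, true)) (a (fl (i, true)))
  rw [G.pair] at this
  exact this

lemma W_left (G : Good a z d) (u u' v : V) (l : List (I × Bool)) :
    W a z d u l v ≤ d u u' + W a z d u' l v := by
  cases l with
  | nil => exact G.tri u u' v
  | cons o l =>
    simp only [W]
    have := G.tri u u' (a o)
    linarith

lemma W_right (G : Good a z d) (l : List (I × Bool)) : ∀ (u v v' : V),
    W a z d u l v ≤ W a z d u l v' + d v' v := by
  induction l with
  | nil => intro u v v'; exact G.tri u v' v
  | cons o l ih =>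
    intro u v v'
    simp only [W]
    have := ih (a (fl o)) v v'
    linarith

lemma W_append (G : Good a z d) (l1 l2 : List (I × Bool)) : ∀ (u c v : V),
    W a z d u (l1 ++ l2) v ≤ W a z d u l1 c + W a z d c l2 v := by
  induction l1 with
  | nil => intro u c v; exact W_left G u c v l2
  | cons o l ih =>
    intro u c v
    simp only [W, List.cons_append]
    have := ih (a (fl o)) c v
    linarith

lemma W_split (l1 l2 : List (I × Bool)) (o : I × Bool) : ∀ (u v : V),
    W a z d u (l1 ++ o :: l2) v = W a z d u l1 (a o) - z o.1 + W a z d (a (fl o)) l2 v := by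
  induction l1 with
  | nil => intro u v; simp [W]
  | cons p l ih =>
    intro u v
    simp only [W, List.cons_append]
    rw [ih]
    ring

lemma W_split' (G : Good a z d) (l1 l2 : List (I × Bool)) (o : I × Bool) (u v : V) :
    W a z d u (l1 ++ o :: l2) v = W a z d u l1 (a o) + W a z d (a o) (o :: l2) v := by
  rw [W_split]
  simp only [W]
  rw [G.self]
  ring

/-- reversed list -/
def rv (l : List (I × Bool)) : List (I × Bool) := (l.map fl).reverse

lemma rv_cons (o : I × Bool) (l : List (I × Bool)) : rv (o :: l) = rv l ++ [fl o] := by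
  simp [rv]

lemma rv_fst (l : List (I × Bool)) : (rv l).map Prod.fst = (l.map Prod.fst).reverse := by
  unfold rv
  rw [List.map_reverse, List.map_map]
  rfl

lemma W_rev (G : Good a z d) (l : List (I × Bool)) : ∀ (u v : V),
    W a z d v (rv l) u = W a z d u l v := by
  induction l with
  | nil => intro u v; simpa [rv, W] using G.symm v u
  | cons o l ih =>
    intro u v
    rw [rv_cons, W_split]
    simp only [W, fl_fl, fl_fst]
    rw [ih, G.symm (a o) u]
    ring

lemma W_pot {F : V → ℝ} {e : I → Bool} (h1 : ∀ u v, F v - F u ≤ d u v)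
    (h2 : ∀ i, F (a (i, e i)) - F (a (fl (i, e i))) = z i) (l : List (I × Bool)) :
    (∀ o ∈ l, o.2 = e o.1) → ∀ (u v : V), F v - F u ≤ W a z d u l v := by
  induction l with
  | nil => intro _ u v; exact h1 u v
  | cons o l ih =>
    intro hl u v
    simp only [W]
    have ho : o.2 = e o.1 := hl o (by simp)
    have ih' := ih (fun q hq => hl q (by simp [hq])) (a (fl o)) v
    have h3 := h1 u (a o)
    have h4 := h2 o.1
    have h5 : (o.1, e o.1) = o := by rw [← ho]
    rw [h5] at h4
    linarith

lemma orient {l : List (I × Bool)} (hl : (l.map Prod.fst).Nodup) :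
    ∃ e : I → Bool, ∀ o ∈ l, o.2 = e o.1 := by
  classical
  refine ⟨fun i => decide ((i, true) ∈ l), ?_⟩
  intro o ho
  rcases o with ⟨i, s⟩
  cases s with
  | true => simp [ho]
  | false =>
    have : (i, true) ∉ l := by
      intro h
      have := List.inj_on_of_nodup_map hl ho h rfl
      simp at this
    simp [this]

lemma cons_nonneg (G : Good a z d) {l : List (I × Bool)} (hl : (l.map Prod.fst).Nodup) (v : V) :
    0 ≤ W a z d v l v := by
  obtain ⟨e, he⟩ := orient hl
  obtain ⟨F, h1, h2⟩ := G.pot e
  have := W_pot h1 h2 l he v v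
  linarith


lemma nodup_finite (I : Type*) [Finite I] :
    Set.Finite {l : List (I × Bool) | (l.map Prod.fst).Nodup} := by
  classical
  cases nonempty_fintype I
  have h : Set.Finite {l : List (I × Bool) | l.Nodup} := by
    have hf : Finite {l : List (I × Bool) // l.Nodup} := Finite.of_fintype _
    refine (Set.finite_range (Subtype.val : {l : List (I × Bool) // l.Nodup} → _)).subset ?_
    intro l hl
    exact ⟨⟨l, hl⟩, rfl⟩
  exact h.subset (fun l hl => List.Nodup.of_map _ hl)

lemma exists_min [Finite V] [Finite I] (G : Good a z d) {i0 : I} (h0 : 0 < z i0) :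
    ∃ (v0 : V) (l : List (I × Bool)) (v1 : V), (l.map Prod.fst).Nodup ∧ W a z d v0 l v1 < 0 ∧
      (∀ (u : V) (l' : List (I × Bool)) (v : V), (l'.map Prod.fst).Nodup →
        W a z d v0 l v1 ≤ W a z d u l' v) ∧
      (∀ (u : V) (l' : List (I × Bool)) (v : V), (l'.map Prod.fst).Nodup →
        l'.length < l.length → W a z d v0 l v1 < W a z d u l' v) := by
  classical
  let S : Set (V × List (I × Bool) × V) := {q | (q.2.1.map Prod.fst).Nodup}
  have hS : S.Finite := by
    have h1 := (Set.toFinite (Set.univ : Set V)).prod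
      ((nodup_finite I).prod (Set.toFinite (Set.univ : Set V)))
    refine h1.subset ?_
    intro q hq
    simp only [Set.mem_prod, Set.mem_univ, true_and, and_true]
    exact hq
  have hne : S.Nonempty := ⟨(a (i0, true), [], a (i0, true)), by simp [S]⟩
  obtain ⟨q, hq, hmin⟩ := Set.exists_min_image S
    (fun q => toLex (W a z d q.1 q.2.1 q.2.2, q.2.1.length)) hS hne
  have hle : ∀ (u : V) (l' : List (I × Bool)) (v : V), (l'.map Prod.fst).Nodup →
        W a z d q.1 q.2.1 q.2.2 ≤ W a z d u l' v := by
    intro u l' v hl'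
    have := hmin (u, l', v) hl'
    rw [Prod.Lex.le_iff] at this
    simp only [ofLex_toLex] at this
    rcases this with h | h
    · exact h.le
    · exact h.1.le
  refine ⟨q.1, q.2.1, q.2.2, hq, ?_, hle, ?_⟩
  · have := hle (a (i0, true)) [(i0, true)] (a (fl (i0, true))) (by simp)
    simp only [W, G.self] at this
    linarith
  · intro u l' v hl' hlen
    have := hmin (u, l', v) hl'
    rw [Prod.Lex.le_iff] at this
    simp only [ofLex_toLex] at this
    rcases this with h | h
    · exact h
    · omega


structure MinPath (a : I × Bool → V) (z : I → ℝ) (d : V → V → ℝ) (o1 : I × Bool)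
    (l' : List (I × Bool)) (v1 : V) : Prop where
  nd : ((o1 :: l').map Prod.fst).Nodup
  neg : W a z d (a o1) (o1 :: l') v1 < 0
  min : ∀ (u : V) (m : List (I × Bool)) (v : V), (m.map Prod.fst).Nodup →
        W a z d (a o1) (o1 :: l') v1 ≤ W a z d u m v
  len : ∀ (u : V) (m : List (I × Bool)) (v : V), (m.map Prod.fst).Nodup →
        m.length < (o1 :: l').length → W a z d (a o1) (o1 :: l') v1 < W a z d u m v

lemma exists_minPath [Finite V] [Finite I] (G : Good a z d) {i0 : I} (h0 : 0 < z i0) :
    ∃ (o1 : I × Bool) (l' : List (I × Bool)) (v1 : V), MinPath a z d o1 l' v1 := by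
  obtain ⟨v0, l, v1, h1, h2, h3, h4⟩ := exists_min G h0
  cases l with
  | nil =>
    exfalso
    simp only [W] at h2
    have := G.nonneg v0 v1
    linarith
  | cons o l =>
    have h5 : W a z d (a o) (o :: l) v1 ≤ W a z d v0 (o :: l) v1 := by
      simp only [W]
      rw [G.self]
      have := G.nonneg v0 (a o)
      linarith
    refine ⟨o, l, v1, h1, lt_of_le_of_lt h5 h2, fun u m v hm => h5.trans (h3 u m v hm), ?_⟩
    intro u m v hm hl
    exact lt_of_le_of_lt h5 (h4 u m v hm hl)

lemma nodup_right {l1 l2 : List (I × Bool)} {o : I × Bool}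
    (h : ((l1 ++ o :: l2).map Prod.fst).Nodup) : ((o :: l2).map Prod.fst).Nodup := by
  rw [List.map_append] at h
  exact h.of_append_right

lemma nodup_left {l1 l2 : List (I × Bool)}
    (h : ((l1 ++ l2).map Prod.fst).Nodup) : (l1.map Prod.fst).Nodup := by
  rw [List.map_append] at h
  exact h.of_append_left

lemma prefix_neg (G : Good a z d) {o1 : I × Bool} {l' : List (I × Bool)} {v1 : V}
    (M : MinPath a z d o1 l' v1) {l1 l2 : List (I × Bool)} {o : I × Bool}
    (h : o1 :: l' = l1 ++ o :: l2) (hne : l1 ≠ []) : W a z d (a o1) l1 (a o) < 0 := by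
  have h1 := M.len (a o) (o :: l2) v1 (nodup_right (by rw [← h]; exact M.nd)) (by
    rw [h, List.length_append]
    have : 0 < l1.length := List.length_pos_of_ne_nil hne
    omega)
  rw [h, W_split' G] at h1
  linarith

lemma z_pos (G : Good a z d) {o1 : I × Bool} {l' : List (I × Bool)} {v1 : V}
    (M : MinPath a z d o1 l' v1) : 0 < z o1.1 := by
  cases l' with
  | nil =>
    have := M.neg
    simp only [W] at this
    rw [G.self] at this
    have h := G.nonneg (a (fl o1)) v1
    linarith
  | cons o l =>
    have := prefix_neg G M (l1 := [o1]) (l2 := l) (o := o) rfl (by simp)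
    simp only [W] at this
    rw [G.self] at this
    have h := G.nonneg (a (fl o1)) (a o)
    linarith

lemma not_mem_fst {l : List (I × Bool)} {o : I × Bool} :
    o.1 ∈ l.map Prod.fst → ∃ (l1 l2 : List (I × Bool)) (p : I × Bool), l = l1 ++ p :: l2 ∧
      p.1 = o.1 := by
  intro h
  rw [List.mem_map] at h
  obtain ⟨p, hp, hpo⟩ := h
  obtain ⟨l1, l2, h⟩ := List.append_of_mem hp
  exact ⟨l1, l2, p, h, hpo⟩

lemma no_pair (G : Good a z d) {o1 : I × Bool} {l' : List (I × Bool)} {v1 : V}
    (M : MinPath a z d o1 l' v1) {o : I × Bool} (ho : o.1 ≠ o1.1) (hz : 0 < z o.1)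
    (h0 : d (a (fl o)) (a o1) = 0) : False := by
  by_cases hmem : o.1 ∈ (o1 :: l').map Prod.fst
  · obtain ⟨l1, l2, p, hl, hp⟩ := not_mem_fst hmem
    have hne : l1 ≠ [] := by
      rintro rfl
      simp only [List.nil_append, List.cons.injEq] at hl
      exact ho (by rw [← hp, ← hl.1])
    have hneg := prefix_neg G M hl hne
    rcases eq_or_fl (o := o) (p := p) hp.symm with h | h
    · subst h
      have hnd : ((l1 ++ [p]).map Prod.fst).Nodup := by
        have := M.nd
        rw [hl, List.append_cons] at this
        exact nodup_left this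
      have h1 := cons_nonneg G hnd (a o1)
      rw [W_split] at h1
      simp only [W] at h1
      rw [h0] at h1
      linarith
    · subst h
      have hnd : (l1.map Prod.fst).Nodup := by
        have := M.nd
        rw [hl] at this
        exact nodup_left this
      have h1 := cons_nonneg G hnd (a o1)
      have h2 := W_right G l1 (a o1) (a o1) (a (fl o))
      linarith
  · have h1 := M.min (a o) (o :: (o1 :: l')) v1 (by
      rw [List.map_cons, List.nodup_cons]
      exact ⟨hmem, M.nd⟩)
    have h2 := W_left G (a (fl o)) (a o1) v1 (o1 :: l')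
    have h3 : W a z d (a o) (o :: (o1 :: l')) v1 =
      d (a o) (a o) - z o.1 + W a z d (a (fl o)) (o1 :: l') v1 := rfl
    rw [h3, G.self] at h1
    linarith


lemma first_common {α : Type*} (P : α → Prop) (l : List α) (h : ∃ x ∈ l, P x) :
    ∃ (l1 : List α) (x : α) (l2 : List α), l = l1 ++ x :: l2 ∧ P x ∧ ∀ y ∈ l1, ¬ P y := by
  classical
  induction l with
  | nil => simp at h
  | cons b l ih =>
    by_cases hb : P b
    · exact ⟨[], b, l, rfl, hb, by simp⟩
    · obtain ⟨x, hx, hP⟩ := h
      rcases List.mem_cons.mp hx with h1 | h1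
      · exact absurd (h1 ▸ hP) hb
      · obtain ⟨l1, y, l2, h2, h3, h4⟩ := ih ⟨x, h1, hP⟩
        refine ⟨b :: l1, y, l2, by simp [h2], h3, ?_⟩
        intro w hw
        rcases List.mem_cons.mp hw with h5 | h5
        · rw [h5]; exact hb
        · exact h4 w h5

lemma nodup_app {l m : List (I × Bool)} (h1 : (l.map Prod.fst).Nodup)
    (h2 : (m.map Prod.fst).Nodup) (h3 : ∀ q ∈ l, q.1 ∉ m.map Prod.fst) :
    ((l ++ m).map Prod.fst).Nodup := by
  rw [List.map_append]
  refine h1.append h2 ?_
  intro i hi hi'
  rw [List.mem_map] at hi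
  obtain ⟨q, hq, rfl⟩ := hi
  exact h3 q hq hi'

lemma cycle_pos (G : Good a z d) {o1 : I × Bool} {l' : List (I × Bool)} {v1 : V}
    (M : MinPath a z d o1 l' v1) {C : List (I × Bool)} (hC : (C.map Prod.fst).Nodup)
    (ho : o1.1 ∉ C.map Prod.fst) {u : V} (hu : 0 < d (a o1) u) :
    0 < d (a o1) u + W a z d u C (a o1) := by
  by_cases hcom : ∃ q ∈ o1 :: l', q.1 ∈ C.map Prod.fst
  · obtain ⟨l1, o, l2, hl, hoC, hl1⟩ := first_common _ _ hcom
    have hne : l1 ≠ [] := by
      rintro rfl
      simp only [List.nil_append, List.cons.injEq] at hl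
      rw [← hl.1] at hoC
      exact ho hoC
    have hneg := prefix_neg G M hl hne
    have hl1nd : (l1.map Prod.fst).Nodup := by
      have := M.nd
      rw [hl] at this
      exact nodup_left this
    obtain ⟨C1, C2, p, hCp, hpo⟩ := not_mem_fst hoC
    have hCnd := hC
    rw [hCp] at hCnd
    rcases eq_or_fl (o := o) (p := p) hpo.symm with h | h
    · subst h
      have hA := cons_nonneg G (nodup_app (l := l1) (m := p :: C2) hl1nd (nodup_right hCnd) (by
        intro q hq hq'
        exact hl1 q hq (by rw [hCp, List.map_append]; exact List.mem_append_right _ hq'))) (a o1)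
      have hB := cons_nonneg G (nodup_app (l := l1) (m := rv C1) hl1nd (by
        rw [rv_fst]
        exact List.nodup_reverse.mpr (nodup_left hCnd)) (by
        intro q hq hq'
        rw [rv_fst, List.mem_reverse] at hq'
        exact hl1 q hq (by rw [hCp, List.map_append]; exact List.mem_append_left _ hq'))) (a o1)
      have e1 := W_append G l1 (p :: C2) (a o1) (a p) (a o1)
      have e2 := W_append G l1 (rv C1) (a o1) (a p) (a o1)
      rw [W_rev G] at e2
      have e3 := W_left G (a o1) u (a p) C1
      rw [hCp, W_split' G]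
      linarith
    · subst h
      have hA := cons_nonneg G (nodup_app (l := l1) (m := C2) hl1nd (by
        have := nodup_right hCnd
        rw [List.map_cons, List.nodup_cons] at this
        exact this.2) (by
        intro q hq hq'
        refine hl1 q hq ?_
        rw [hCp, List.map_append, List.map_cons]
        exact List.mem_append_right _ (List.mem_cons_of_mem _ hq'))) (a o1)
      have hnd3 : ((C1 ++ [fl o]).map Prod.fst).Nodup := by
        rw [List.append_cons] at hCnd
        exact nodup_left hCnd
      have hB := cons_nonneg G (nodup_app (l := l1) (m := rv (C1 ++ [fl o])) hl1nd (by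
        rw [rv_fst]
        exact List.nodup_reverse.mpr hnd3) (by
        intro q hq hq'
        rw [rv_fst, List.mem_reverse] at hq'
        refine hl1 q hq ?_
        rw [hCp, List.append_cons, List.map_append]
        exact List.mem_append_left _ hq')) (a o1)
      have e1 := W_append G l1 C2 (a o1) (a o) (a o1)
      have e2 := W_append G l1 (rv (C1 ++ [fl o])) (a o1) (a o) (a o1)
      rw [W_rev G, W_split] at e2
      simp only [W, fl_fl, fl_fst] at e2
      rw [G.self] at e2
      have e3 := W_left G (a o1) u (a (fl o)) C1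
      rw [hCp, W_split]
      simp only [fl_fl, fl_fst]
      linarith
  · push Not at hcom
    have h1 := M.min u (C ++ (o1 :: l')) v1 (nodup_app hC M.nd (by
      intro q hq hq'
      rw [List.mem_map] at hq'
      obtain ⟨r, hr, hrq⟩ := hq'
      exact hcom r hr (by rw [hrq]; exact List.mem_map_of_mem hq)))
    have h2 := W_append G C (o1 :: l') u (a o1) v1
    linarith

lemma cycle_bound [Finite V] [Finite I] (G : Good a z d) {o1 : I × Bool}
    {l' : List (I × Bool)} {v1 : V} (M : MinPath a z d o1 l' v1) :
    ∃ δ : ℝ, 0 < δ ∧ ∀ (C : List (I × Bool)), (C.map Prod.fst).Nodup →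
      o1.1 ∉ C.map Prod.fst → ∀ u : V, 0 < d (a o1) u →
        δ ≤ d (a o1) u + W a z d u C (a o1) := by
  let S : Set (V × List (I × Bool)) :=
    {q | (q.2.map Prod.fst).Nodup ∧ o1.1 ∉ q.2.map Prod.fst ∧ 0 < d (a o1) q.1}
  have hS : S.Finite := by
    have h1 := (Set.toFinite (Set.univ : Set V)).prod (nodup_finite I)
    refine h1.subset ?_
    intro q hq
    simp only [Set.mem_prod, Set.mem_univ, true_and]
    exact hq.1
  by_cases hne : S.Nonempty
  · obtain ⟨q, hq, hmin⟩ := Set.exists_min_image S
      (fun q => d (a o1) q.1 + W a z d q.1 q.2 (a o1)) hS hne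
    refine ⟨_, cycle_pos G M hq.1 hq.2.1 hq.2.2, ?_⟩
    intro C hC ho u hu
    exact hmin (u, C) ⟨hC, ho, hu⟩
  · refine ⟨1, one_pos, ?_⟩
    intro C hC ho u hu
    exact absurd ⟨(u, C), hC, ho, hu⟩ hne


/-- admissible lists for the orientation `e` -/
def Adm (e : I → Bool) : Set (List (I × Bool)) :=
  {l | (l.map Prod.fst).Nodup ∧ ∀ o ∈ l, o.2 = e o.1}

lemma exists_dist [Finite I] (a : I × Bool → V) (z : I → ℝ) (d : V → V → ℝ) (e : I → Bool)
    (v : V) : ∃ D : V → ℝ, (∀ u, ∃ l ∈ Adm e, W a z d u l v = D u) ∧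
      ∀ u, ∀ l ∈ Adm e, D u ≤ W a z d u l v := by
  have hfin : (Adm e).Finite := (nodup_finite I).subset (fun l hl => hl.1)
  have hne : (Adm e).Nonempty := ⟨[], by simp [Adm]⟩
  have h := fun u : V => Set.exists_min_image (Adm e) (fun l => W a z d u l v) hfin hne
  choose L hL hmin using h
  exact ⟨fun u => W a z d u (L u) v, fun u => ⟨L u, hL u, rfl⟩, fun u l hl => hmin u l hl⟩

lemma potential [Finite V] [Finite I] (G : Good a z d) {o1 : I × Bool}
    {δ : ℝ}
    (hδ : ∀ (C : List (I × Bool)), (C.map Prod.fst).Nodup →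
      o1.1 ∉ C.map Prod.fst → ∀ u : V, 0 < d (a o1) u →
        δ ≤ d (a o1) u + W a z d u C (a o1)) {e : I → Bool} (he : e o1.1 = o1.2) :
    ∃ F : V → ℝ, (∀ u v, F v - F u ≤ d u v) ∧
      (∀ i, F (a (i, e i)) - F (a (fl (i, e i))) = z i) ∧
      ∀ u, 0 < d (a o1) u → F u - F (a o1) ≤ d (a o1) u - δ := by
  obtain ⟨D, hD1, hD2⟩ := exists_dist a z d e (a o1)
  have hLip : ∀ u v, D u ≤ d u v + D v := by
    intro u v
    obtain ⟨l, hl, hlv⟩ := hD1 v
    have := hD2 u l hl
    have h2 := W_left G u v (a o1) l
    linarith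
  have hmem : ∀ l ∈ Adm e, ∀ o ∈ l, ∀ p : I × Bool, p.2 = e p.1 → p.1 = o.1 → p = o := by
    intro l hl o ho p hp hpo
    have h1 := hl.2 o ho
    apply Prod.ext hpo
    rw [hp, h1, hpo]
  have hsplit : ∀ l ∈ Adm e, ∀ l1 l2 : List (I × Bool), ∀ p : I × Bool, l = l1 ++ p :: l2 →
      l1 ∈ Adm e ∧ (p :: l2) ∈ Adm e ∧ (l1 ++ [p]) ∈ Adm e ∧ p.1 ∉ l1.map Prod.fst := by
    intro l hl l1 l2 p hp
    have hnd := hl.1
    rw [hp] at hnd
    refine ⟨⟨nodup_left hnd, fun o ho => hl.2 o (by rw [hp]; simp [ho])⟩,
      ⟨nodup_right hnd, fun o ho => hl.2 o (by rw [hp]; exact List.mem_append_right _ ho)⟩,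
      ⟨?_, fun o ho => hl.2 o (by
        rw [hp, List.append_cons]; exact List.mem_append_left _ ho)⟩, ?_⟩
    · rw [List.append_cons] at hnd
      exact nodup_left hnd
    · rw [List.map_append, List.map_cons] at hnd
      intro hmem'
      exact List.disjoint_of_nodup_append hnd hmem' (by simp)
  refine ⟨fun u => - D u, ?_, ?_, ?_⟩
  · intro u v
    have := hLip u v
    linarith
  · intro i
    set p : I × Bool := (i, e i) with hp
    have hpe : p.2 = e p.1 := rfl
    have h1 := hLip (a (fl p)) (a p)
    rw [G.symm, G.pair p] at h1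
    have hzi : z p.1 = z i := rfl
    obtain ⟨C, hC, hCv⟩ := hD1 (a (fl p))
    have h2 : D (a p) ≤ - z i + D (a (fl p)) := by
      by_cases hpC : p ∈ C
      · obtain ⟨C1, C2, hC12⟩ := List.append_of_mem hpC
        obtain ⟨k1, k2, k3, k4⟩ := hsplit C hC C1 C2 p hC12
        have h3 := hD2 (a p) (p :: C2) k2
        have h4 := cons_nonneg G k3.1 (a (fl p))
        rw [W_split] at h4
        rw [hC12, W_split] at hCv
        simp only [W] at h3 h4
        rw [G.self] at h3 h4
        linarith
      · have h3 := hD2 (a p) (p :: C) ⟨by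
          rw [List.map_cons, List.nodup_cons]
          refine ⟨?_, hC.1⟩
          intro hq
          rw [List.mem_map] at hq
          obtain ⟨q, hq1, hq2⟩ := hq
          have := hmem C hC q hq1 p hpe hq2.symm
          exact hpC (this ▸ hq1), by
          intro o ho
          rcases List.mem_cons.mp ho with h | h
          · rw [h]
          · exact hC.2 o h⟩
        simp only [W] at h3
        rw [G.self] at h3
        linarith
    linarith
  · intro u hu
    have h0 : D (a o1) ≤ 0 := by
      have := hD2 (a o1) [] (by simp [Adm])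
      simp only [W] at this
      rw [G.self] at this
      exact this
    obtain ⟨C, hC, hCv⟩ := hD1 u
    have h1 : δ ≤ d (a o1) u + D u := by
      by_cases hoC : o1 ∈ C
      · obtain ⟨C1, C2, hC12⟩ := List.append_of_mem hoC
        obtain ⟨k1, k2, k3, k4⟩ := hsplit C hC C1 C2 o1 hC12
        have h3 := hδ C1 k1.1 k4 u hu
        have h4 := cons_nonneg G k2.1 (a o1)
        rw [hC12, W_split' G] at hCv
        linarith
      · have h3 := hδ C hC.1 (by
          intro hq
          rw [List.mem_map] at hq
          obtain ⟨q, hq1, hq2⟩ := hq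
          have := hmem C hC q hq1 o1 he.symm hq2.symm
          exact hoC (this ▸ hq1)) u hu
        linarith
    linarith


/-- what the cut improvement gives for one orientation -/
def Imp (a : I × Bool → V) (z : I → ℝ) (d : V → V → ℝ) (o1 : I × Bool) (B : V → Prop)
    (t : ℝ) (e : I → Bool) (F : V → ℝ) : Prop :=
  (∀ u v, (B u ↔ B v) → F v - F u ≤ d u v) ∧
    (∀ u v, B u → ¬ B v → F v - F u ≤ d u v - t ∧ F u - F v ≤ d u v - t) ∧
    (∀ i, i ≠ o1.1 → F (a (i, e i)) - F (a (fl (i, e i))) = z i) ∧
    F (a (o1.1, e o1.1)) - F (a (fl (o1.1, e o1.1))) = z o1.1 - t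

lemma imp_pos (G : Good a z d) {o1 : I × Bool} {t δ : ℝ} (ht : 2 * t ≤ δ)
    (hpair : ∀ o : I × Bool, o.1 ≠ o1.1 → (d (a o1) (a o) = 0 ↔ d (a o1) (a (fl o)) = 0))
    (hout : d (a o1) (a (fl o1)) ≠ 0) {e : I → Bool} (he : e o1.1 = o1.2) {F : V → ℝ}
    (h1 : ∀ u v, F v - F u ≤ d u v)
    (h2 : ∀ i, F (a (i, e i)) - F (a (fl (i, e i))) = z i)
    (h3 : ∀ u, 0 < d (a o1) u → F u - F (a o1) ≤ d (a o1) u - δ) :
    ∃ F' : V → ℝ, Imp a z d o1 (fun v => d (a o1) v = 0) t e F' := by
  classical
  refine ⟨fun v => if d (a o1) v = 0 then F v - t else F v, ?_, ?_, ?_, ?_⟩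
  · intro u v huv
    by_cases hu : d (a o1) u = 0
    · have hv := huv.mp hu
      simp only [hu, hv, if_true]
      have := h1 u v
      linarith
    · have hv : ¬ d (a o1) v = 0 := fun h => hu (huv.mpr h)
      simp only [hu, hv, if_false]
      exact h1 u v
  · intro u v hu hv
    have hpos : 0 < d (a o1) v := lt_of_le_of_ne (G.nonneg _ _) (Ne.symm hv)
    have k1 := h3 v hpos
    have k2 := G.tri (a o1) u v
    have k3 := h1 u (a o1)
    have k4 := G.symm u (a o1)
    have k5 := h1 v u
    have k6 := G.symm v u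
    simp only [hu, hv, if_true, if_false]
    rw [k4, hu] at k3
    constructor <;> linarith
  · intro i hi
    have hp := hpair (i, e i) hi
    by_cases hu : d (a o1) (a (i, e i)) = 0
    · have hv := hp.mp hu
      simp only [hu, hv, if_true]
      have := h2 i
      linarith
    · have hv : ¬ d (a o1) (a (fl (i, e i))) = 0 := fun h => hu (hp.mpr h)
      simp only [hu, hv, if_false]
      exact h2 i
  · have k1 : (o1.1, e o1.1) = o1 := by rw [he]
    have k2 := h2 o1.1
    rw [k1] at k2 ⊢
    simp only [G.self, hout, if_true, if_false]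
    linarith

lemma imp_neg {o1 : I × Bool} {B : V → Prop} {t : ℝ} {e : I → Bool} {F : V → ℝ}
    (hsymm : ∀ u v, d u v = d v u)
    (h : Imp a z d o1 B t (fun i => !e i) F) : Imp a z d o1 B t e (fun v => - F v) := by
  obtain ⟨h1, h2, h3, h4⟩ := h
  have hf : ∀ i, fl (i, e i) = (i, !e i) := fun i => rfl
  have hf' : ∀ i, fl (i, !e i) = (i, e i) := fun i => by simp [fl]
  refine ⟨?_, ?_, ?_, ?_⟩
  · intro u v huv
    have := h1 v u huv.symm
    rw [hsymm v u] at this
    linarith
  · intro u v hu hv
    have := h2 u v hu hv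
    constructor <;> linarith [this.1, this.2]
  · intro i hi
    have := h3 i hi
    rw [hf']  at this
    rw [hf]
    linarith
  · have := h4
    rw [hf'] at this
    rw [hf]
    linarith

theorem improve [Finite V] [Finite I] (G : Good a z d) {i0 : I} (h0 : 0 < z i0) :
    ∃ (o1 : I × Bool) (B : V → Prop) (t : ℝ), 0 < t ∧ t ≤ z o1.1 ∧ B (a o1) ∧ ¬ B (a (fl o1)) ∧
      (∀ o : I × Bool, o.1 ≠ o1.1 → (B (a o) ↔ B (a (fl o)))) ∧
      ∀ e : I → Bool, ∃ F : V → ℝ, Imp a z d o1 B t e F := by
  obtain ⟨o1, l', v1, M⟩ := exists_minPath G h0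
  obtain ⟨δ, hδ0, hδ⟩ := cycle_bound G M
  have hz := z_pos G M
  have hpair : ∀ o : I × Bool, o.1 ≠ o1.1 →
      (d (a o1) (a o) = 0 ↔ d (a o1) (a (fl o)) = 0) := by
    intro o ho
    rcases (G.z_nonneg o.1).eq_or_lt with h | h
    · have k1 := G.pair o
      rw [← h] at k1
      have k2 := G.tri (a o1) (a o) (a (fl o))
      have k3 := G.tri (a o1) (a (fl o)) (a o)
      have k4 := G.symm (a o) (a (fl o))
      have k5 := G.nonneg (a o1) (a o)
      have k6 := G.nonneg (a o1) (a (fl o))
      constructor <;> intro h <;> linarith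
    · constructor
      · intro h5
        exfalso
        refine no_pair G M (o := fl o) ho h ?_
        rw [fl_fl, G.symm]
        exact h5
      · intro h5
        exfalso
        refine no_pair G M (o := o) ho h ?_
        rw [G.symm]
        exact h5
  have hout : d (a o1) (a (fl o1)) ≠ 0 := by
    rw [G.pair]
    exact hz.ne'
  refine ⟨o1, fun v => d (a o1) v = 0, min (δ / 2) (z o1.1), lt_min (by linarith) hz,
    min_le_right _ _, G.self _, hout, hpair, ?_⟩
  have ht : 2 * min (δ / 2) (z o1.1) ≤ δ := by
    have := min_le_left (δ / 2) (z o1.1)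
    linarith
  intro e
  by_cases he : e o1.1 = o1.2
  · obtain ⟨F, h1, h2, h3⟩ := potential G hδ he
    exact imp_pos G ht hpair hout he h1 h2 h3
  · have he' : (fun i => !e i) o1.1 = o1.2 := by
      simp only
      cases h : e o1.1 <;> cases h' : o1.2 <;> simp_all
    obtain ⟨F, h1, h2, h3⟩ := potential (e := fun i => !e i) G hδ he'
    obtain ⟨F', hF'⟩ := imp_pos (e := fun i => !e i) G ht hpair hout he' h1 h2 h3
    exact ⟨_, imp_neg G.symm hF'⟩


/-- configurations: cuts already packed, remaining lengths, remaining potentials -/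
def Conf [Fintype I] (a : I × Bool → V) (z : I → ℝ) (d : V → V → ℝ) (r : V) :
    Set ((I → V → ℝ) × (I → ℝ) × ((I → Bool) → V → ℝ)) :=
  {q | (∀ i, 0 ≤ q.2.1 i) ∧ (∀ i, q.2.1 i ≤ z i) ∧ (∀ i, q.1 i r = 0) ∧ (∀ e, q.2.2 e r = 0) ∧
    (∀ i j, i ≠ j → q.1 i (a (j, true)) - q.1 i (a (j, false)) = 0) ∧
    (∀ i, q.1 i (a (i, true)) - q.1 i (a (i, false)) = z i - q.2.1 i) ∧
    (∀ (e : I → Bool) (i : I), q.2.2 e (a (i, e i)) - q.2.2 e (a (fl (i, e i))) = q.2.1 i) ∧
    ∀ (e : I → Bool) (u v : V), ∑ i, |q.1 i u - q.1 i v| + |q.2.2 e u - q.2.2 e v| ≤ d u v}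

lemma conf_closed [Fintype I] (a : I × Bool → V) (z : I → ℝ) (d : V → V → ℝ) (r : V) :
    IsClosed (Conf a z d r) := by
  unfold Conf
  simp only [Set.ofPred_and, Set.ofPred_forall]
  refine IsClosed.inter (isClosed_iInter fun i => isClosed_le (by fun_prop) (by fun_prop)) ?_
  refine IsClosed.inter (isClosed_iInter fun i => isClosed_le (by fun_prop) (by fun_prop)) ?_
  refine IsClosed.inter (isClosed_iInter fun i => isClosed_eq (by fun_prop) (by fun_prop)) ?_
  refine IsClosed.inter (isClosed_iInter fun i => isClosed_eq (by fun_prop) (by fun_prop)) ?_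
  refine IsClosed.inter (isClosed_iInter fun i => isClosed_iInter fun j => isClosed_iInter fun _ =>
    isClosed_eq (by fun_prop) (by fun_prop)) ?_
  refine IsClosed.inter (isClosed_iInter fun i => isClosed_eq (by fun_prop) (by fun_prop)) ?_
  refine IsClosed.inter (isClosed_iInter fun i => isClosed_iInter fun j =>
    isClosed_eq (by fun_prop) (by fun_prop)) ?_
  exact isClosed_iInter fun i => isClosed_iInter fun j => isClosed_iInter fun k =>
    isClosed_le (by fun_prop) (by fun_prop)

lemma conf_compact [Fintype V] [Fintype I] (a : I × Bool → V) (z : I → ℝ) (d : V → V → ℝ)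
    (r : V) : IsCompact (Conf a z d r) := by
  set R : ℝ := ∑ u, ∑ v, |d u v| with hR
  have hdR : ∀ u v, d u v ≤ R := by
    intro u v
    calc d u v ≤ |d u v| := le_abs_self _
      _ ≤ ∑ v, |d u v| := Finset.single_le_sum (f := fun v => |d u v|)
          (fun _ _ => abs_nonneg _) (Finset.mem_univ v)
      _ ≤ R := Finset.single_le_sum (f := fun u => ∑ v, |d u v|)
          (fun _ _ => Finset.sum_nonneg fun _ _ => abs_nonneg _) (Finset.mem_univ u)
  refine IsCompact.of_isClosed_subset (s := Set.Icc
    ((fun _ _ => -R, fun _ => 0, fun _ _ => -R) : (I → V → ℝ) × (I → ℝ) × ((I → Bool) → V → ℝ))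
    (fun _ _ => R, z, fun _ _ => R)) isCompact_Icc (conf_closed a z d r) ?_
  rintro ⟨φ, w, F⟩ ⟨h1, h2, h3, h4, h5, h6, h7, h8⟩
  simp only at h1 h2 h3 h4 h5 h6 h7 h8
  have hφ : ∀ i v, |φ i v| ≤ R := by
    intro i v
    have k1 := h8 (fun _ => true) v r
    have k2 : |φ i v - φ i r| ≤ ∑ i, |φ i v - φ i r| :=
      Finset.single_le_sum (f := fun i => |φ i v - φ i r|) (fun _ _ => abs_nonneg _)
        (Finset.mem_univ i)
    have k3 := abs_nonneg (F (fun _ => true) v - F (fun _ => true) r)
    have k4 := hdR v r
    rw [h3 i, sub_zero] at k2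
    linarith
  have hF : ∀ e v, |F e v| ≤ R := by
    intro e v
    have k1 := h8 e v r
    have k2 : 0 ≤ ∑ i, |φ i v - φ i r| := Finset.sum_nonneg fun _ _ => abs_nonneg _
    have k4 := hdR v r
    rw [h4 e, sub_zero] at k1
    linarith
  refine ⟨⟨?_, ?_, ?_⟩, ⟨?_, ?_, ?_⟩⟩
  · intro i v; exact (abs_le.mp (hφ i v)).1
  · intro i; exact h1 i
  · intro e v; exact (abs_le.mp (hF e v)).1
  · intro i v; exact (abs_le.mp (hφ i v)).2
  · intro i; exact h2 i
  · intro e v; exact (abs_le.mp (hF e v)).2


lemma fin_step [Finite V] [Fintype I] {a : I × Bool → V} {z : I → ℝ} {d : V → V → ℝ}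
    {r : V} {φ : I → V → ℝ} {w : I → ℝ} {F : (I → Bool) → V → ℝ}
    (hq : (φ, w, F) ∈ Conf a z d r) {i0 : I} (hi0 : w i0 ≠ 0) :
    ∃ q ∈ Conf a z d r, ∑ i, q.2.1 i < ∑ i, w i := by
  classical
  obtain ⟨h1, h2, h3, h4, h5, h6, h7, h8⟩ := hq
  simp only at h1 h2 h3 h4 h5 h6 h7 h8
  set D : V → V → ℝ := fun u v => ⨆ e : I → Bool, |F e u - F e v| with hD
  have hbdd : ∀ u v, BddAbove (Set.range fun e : I → Bool => |F e u - F e v|) := fun u v =>
    (Set.finite_range _).bddAbove
  have hle : ∀ e u v, |F e u - F e v| ≤ D u v := fun e u v => le_ciSup (hbdd u v) e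
  have hFo : ∀ (e : I → Bool) (o : I × Bool), |F e (a o) - F e (a (fl o))| = w o.1 := by
    intro e o
    have k := h7 e o.1
    rcases eq_or_fl (o := (o.1, e o.1)) (p := o) rfl with h | h
    · rw [← h] at k
      rw [k, abs_of_nonneg (h1 _)]
    · have h' : fl o = (o.1, e o.1) := (congrArg fl h).trans (fl_fl _)
      have h'' : fl (o.1, e o.1) = o := h.symm
      rw [h'', ← h'] at k
      rw [abs_sub_comm, k, abs_of_nonneg (h1 _)]
  have G : Good a w D := by
    refine ⟨?_, ?_, ?_, ?_, ?_⟩
    · intro u
      simp [hD]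
    · intro u v
      simp only [hD]
      congr 1
      funext e
      rw [abs_sub_comm]
    · intro u v t
      refine ciSup_le fun e => ?_
      have k1 := hle e u v
      have k2 := hle e v t
      have k3 := abs_sub_le (F e u) (F e v) (F e t)
      linarith
    · intro o
      simp only [hD]
      simp_rw [hFo _ o]
      exact ciSup_const
    · intro e
      refine ⟨F e, fun u v => ?_, h7 e⟩
      have k1 := hle e u v
      have k2 := (abs_le.mp k1).1
      linarith
  have hpos : 0 < w i0 := lt_of_le_of_ne (h1 i0) (Ne.symm hi0)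
  obtain ⟨o1, B, t, ht0, ht1, hB1, hB2, hB3, hF⟩ := improve G hpos
  choose F' hF' using hF
  set χ : V → ℝ := fun v => if B v then 1 else 0 with hχ
  set s : ℝ := if o1.2 then 1 else -1 with hs
  have hs1 : |s| = 1 := by
    rw [hs]; split_ifs <;> simp
  have hsum : ∀ u v, ∑ i, |φ i u - φ i v| + D u v ≤ d u v := by
    intro u v
    have : D u v ≤ d u v - ∑ i, |φ i u - φ i v| := by
      refine ciSup_le fun e => ?_
      have := h8 e u v
      linarith
    linarith
  have hχB : ∀ j, j ≠ o1.1 → χ (a (j, true)) = χ (a (j, false)) := by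
    intro j hj
    have := hB3 (j, true) hj
    have hfl : fl (j, true) = (j, false) := rfl
    rw [hfl] at this
    simp only [hχ, this]
  have hχo : s * (χ (a (o1.1, true)) - χ (a (o1.1, false))) = 1 := by
    rcases o1 with ⟨i1, s1⟩
    cases s1
    · have k1 : fl (i1, false) = (i1, true) := rfl
      rw [k1] at hB2
      simp [hs, hχ, hB1, hB2]
    · have k1 : fl (i1, true) = (i1, false) := rfl
      rw [k1] at hB2
      simp [hs, hχ, hB1, hB2]
  refine ⟨(fun i v => if i = o1.1 then φ i v + s * t * (χ v - χ r) else φ i v,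
    fun i => if i = o1.1 then w i - t else w i, fun e v => F' e v - F' e r), ?_, ?_⟩
  · refine ⟨?_, ?_, ?_, ?_, ?_, ?_, ?_, ?_⟩
    · intro i
      simp only
      split_ifs with h
      · rw [h]; linarith
      · exact h1 i
    · intro i
      simp only
      split_ifs with h
      · have := h2 i; linarith
      · exact h2 i
    · intro i
      simp only
      split_ifs with h
      · rw [h3]; ring
      · exact h3 i
    · intro e
      simp
    · intro i j hij
      simp only
      split_ifs with h
      · have hj : j ≠ o1.1 := fun h' => hij (by rw [h, h'])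
        rw [hχB j hj]
        have := h5 i j hij
        linarith
      · exact h5 i j hij
    · intro i
      simp only
      split_ifs with h
      · subst h
        have k1 := h6 o1.1
        have k2 : s * t * (χ (a (o1.1, true)) - χ r) - s * t * (χ (a (o1.1, false)) - χ r) =
          t * (s * (χ (a (o1.1, true)) - χ (a (o1.1, false)))) := by ring
        rw [hχo] at k2
        linarith
      · exact h6 i
    · intro e i
      simp only
      obtain ⟨-, -, k3, k4⟩ := hF' e
      split_ifs with h
      · subst h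
        linarith
      · have := k3 i h
        linarith
    · intro e u v
      simp only
      obtain ⟨k1, k2, -, -⟩ := hF' e
      have hA : ∑ i, |(if i = o1.1 then φ i u + s * t * (χ u - χ r) else φ i u) -
          (if i = o1.1 then φ i v + s * t * (χ v - χ r) else φ i v)| ≤
          ∑ i, |φ i u - φ i v| + t * |χ u - χ v| := by
        have hA1 : ∀ i, |(if i = o1.1 then φ i u + s * t * (χ u - χ r) else φ i u) -
          (if i = o1.1 then φ i v + s * t * (χ v - χ r) else φ i v)| ≤
          |φ i u - φ i v| + (if i = o1.1 then t * |χ u - χ v| else 0) := by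
          intro i
          split_ifs with h
          · have e1 : φ i u + s * t * (χ u - χ r) - (φ i v + s * t * (χ v - χ r)) =
              (φ i u - φ i v) + s * (t * (χ u - χ v)) := by ring
            rw [e1]
            refine (abs_add_le _ _).trans ?_
            rw [abs_mul, hs1, one_mul, abs_mul, abs_of_pos ht0]
          · simp
        refine (Finset.sum_le_sum fun i _ => hA1 i).trans ?_
        rw [Finset.sum_add_distrib]
        simp
      have hBB : t * |χ u - χ v| + |(F' e u - F' e r) - (F' e v - F' e r)| ≤ D u v := by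
        have e2 : (F' e u - F' e r) - (F' e v - F' e r) = F' e u - F' e v := by ring
        rw [e2]
        by_cases hu : B u
        · by_cases hv : B v
          · have m1 := k1 u v (by simp [hu, hv])
            have m2 := k1 v u (by simp [hu, hv])
            rw [G.symm v u] at m2
            have : χ u - χ v = 0 := by simp [hχ, hu, hv]
            rw [this, abs_zero, mul_zero, zero_add, abs_le]
            constructor <;> linarith
          · have m := k2 u v hu hv
            have : χ u - χ v = 1 := by simp [hχ, hu, hv]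
            rw [this, abs_one, mul_one]
            have : |F' e u - F' e v| ≤ D u v - t := by
              rw [abs_le]; constructor <;> linarith [m.1, m.2]
            linarith
        · by_cases hv : B v
          · have m := k2 v u hv hu
            rw [G.symm v u] at m
            have : χ u - χ v = -1 := by simp [hχ, hu, hv]
            rw [this, abs_neg, abs_one, mul_one]
            have : |F' e u - F' e v| ≤ D u v - t := by
              rw [abs_le]; constructor <;> linarith [m.1, m.2]
            linarith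
          · have m1 := k1 u v (by simp [hu, hv])
            have m2 := k1 v u (by simp [hu, hv])
            rw [G.symm v u] at m2
            have : χ u - χ v = 0 := by simp [hχ, hu, hv]
            rw [this, abs_zero, mul_zero, zero_add, abs_le]
            constructor <;> linarith
      have := hsum u v
      linarith
  · simp only
    refine Finset.sum_lt_sum ?_ ⟨o1.1, Finset.mem_univ _, ?_⟩
    · intro i _
      split_ifs with h
      · linarith
      · exact le_refl _
    · simp only [if_true]
      linarith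

/-- **Finite theorem.** If every choice of signs is interpolated by a function bounded by `d`,
then there is a system of functions with disjoint action. -/
theorem finite_beurling [Fintype V] [Fintype I] (a : I × Bool → V) (z : I → ℝ)
    (hz : ∀ i, 0 ≤ z i) (d : V → V → ℝ) (r : V)
    (pot : ∀ e : I → Bool, ∃ F : V → ℝ, (∀ u v, |F u - F v| ≤ d u v) ∧
      ∀ i, F (a (i, e i)) - F (a (fl (i, e i))) = z i) :
    ∃ φ : I → V → ℝ, (∀ i, φ i r = 0) ∧
      (∀ i j, i ≠ j → φ i (a (j, true)) - φ i (a (j, false)) = 0) ∧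
      (∀ i, φ i (a (i, true)) - φ i (a (i, false)) = z i) ∧
      ∀ u v, ∑ i, |φ i u - φ i v| ≤ d u v := by
  choose F hF1 hF2 using pot
  have hne : (Conf a z d r).Nonempty := by
    refine ⟨(fun _ _ => 0, z, fun e v => F e v - F e r), hz, fun i => le_refl _, fun i => rfl,
      fun e => by simp, fun i j _ => by simp, fun i => by simp, fun e i => ?_, fun e u v => ?_⟩
    · have := hF2 e i
      simp only
      linarith
    · simpa using hF1 e u v
  obtain ⟨q, hq, hmin⟩ := (conf_compact a z d r).exists_isMinOn hne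
    (f := fun q => ∑ i, q.2.1 i) (by fun_prop)
  obtain ⟨φ, w, F0⟩ := q
  have hw : ∀ i, w i = 0 := by
    by_contra hcon
    push Not at hcon
    obtain ⟨i0, hi0⟩ := hcon
    obtain ⟨q', hq', hlt⟩ := fin_step hq hi0
    have := hmin hq'
    simp only [Set.mem_ofPred_eq] at this
    linarith
  obtain ⟨h1, h2, h3, h4, h5, h6, h7, h8⟩ := hq
  simp only at h1 h2 h3 h4 h5 h6 h7 h8
  refine ⟨φ, h3, h5, fun i => ?_, fun u v => ?_⟩
  · rw [h6, hw, sub_zero]
  · have := h8 (fun _ => true) u v
    have k := abs_nonneg (F0 (fun _ => true) u - F0 (fun _ => true) v)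
    linarith

end Pool.Agent.V1190.BeurFin
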