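import Mathlib

open MeasureTheory Set Filter Topology
open scoped ENNReal NNReal

namespace Pool.Agent.V1190.SpecIFS

/-! ### General definitions -/

section Defs

variable {W : Type*} [NormedAddCommGroup W] [InnerProductSpace ℝ W] {E : Type*}

/-- The composition `φ_{w 0} ∘ ⋯ ∘ φ_{w (n-1)}`. -/
def comp (φ : E → W → W) (w : ℕ → E) : ℕ → W → W
  | 0 => id
  | n + 1 => comp φ w n ∘ φ (w n)

/-- A conformal iterated function system on the compact set `X` of the Euclidean space `W`. -/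
structure IsCIFS (X : Set W) (φ : E → W → W) : Prop where
  countable : Countable E
  two : Nontrivial E
  compact : IsCompact X
  connected : IsConnected X
  regular : X = closure (interior X)
  maps : ∀ e, MapsTo (φ e) X X
  inj : ∀ e, InjOn (φ e) X
  contr : ∃ s : ℝ≥0, s < 1 ∧ ∀ e, LipschitzOnWith s (φ e) X
  osc : ∀ a b, a ≠ b → Disjoint (φ a '' interior X) (φ b '' interior X)
  cone : ∃ α : ℝ, 0 < α ∧ ∃ l : ℝ, 0 < l ∧ ∀ x ∈ frontier X, ∃ u : W, ‖u‖ = 1 ∧
    {y | 0 < ‖y - x‖ ∧ ‖y - x‖ < l ∧ Real.cos α * ‖y - x‖ < inner ℝ (y - x) u} ⊆ interior X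
  ext : ∃ V : Set W, IsOpen V ∧ IsConnected V ∧ X ⊆ V ∧
    (∀ e, MapsTo (φ e) V V ∧ InjOn (φ e) V ∧ ContDiffOn ℝ 1 (φ e) V ∧
      ∀ x ∈ V, ConformalAt (φ e) x) ∧
    ∃ K : ℝ, 1 ≤ K ∧ ∀ (w : ℕ → E) (n : ℕ), ∀ x ∈ V, ∀ y ∈ V,
      ‖fderiv ℝ (comp φ w n) y‖ ≤ K * ‖fderiv ℝ (comp φ w n) x‖

/-- The limit set of the subsystem `F`. -/
def limitSet (X : Set W) (φ : E → W → W) (F : Set E) : Set W :=
  {x | ∃ w : ℕ → E, (∀ n, w n ∈ F) ∧ ∀ n, x ∈ comp φ w n '' X}

/-- The dimension spectrum: the Hausdorff dimensions of the limit sets of the nonempty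
subsystems. -/
def spectrum (X : Set W) (φ : E → W → W) : Set ℝ :=
  {t | 0 ≤ t ∧ ∃ F : Set E, F.Nonempty ∧ dimH (limitSet X φ F) = ENNReal.ofReal t}

/-- The local Hausdorff dimension of `F` at `x`. -/
noncomputable def localDim (F : Set ℝ) (x : ℝ) : ℝ≥0∞ :=
  ⨅ (ε : ℝ) (_ : 0 < ε), dimH (F ∩ Metric.closedBall x ε)

end Defs

lemma ofReal_le_of_forall {a : ℝ} {D : ℝ≥0∞} (ha : 0 < a)
    (h : ∀ s, 0 < s → s < a → ENNReal.ofReal s ≤ D) : ENNReal.ofReal a ≤ D := by
  refine le_of_forall_lt_imp_le_of_dense fun t ht => ?_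
  have ht' : t ≠ ⊤ := ne_top_of_lt ht
  have h1 : t.toReal < a := by
    rw [← ENNReal.ofReal_toReal ht'] at ht
    exact (ENNReal.ofReal_lt_ofReal_iff ha).1 ht
  have h2 := h (max t.toReal (a / 2)) (lt_max_of_lt_right (by linarith))
    (max_lt h1 (by linarith))
  refine le_trans ?_ h2
  rw [← ENNReal.ofReal_toReal ht']
  apply ENNReal.ofReal_le_ofReal
  rw [ENNReal.toReal_ofReal ENNReal.toReal_nonneg]
  exact le_max_left _ _

lemma dim_ge {h : ℝ → ℝ} {C s : ℝ} (hC : 0 ≤ C) (hs : 0 < s)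
    (hh2 : ∀ u ∈ Ico (0 : ℝ) 1, ∀ v ∈ Ico (0 : ℝ) 1, |u - v| ≤ C * |h u - h v| ^ s) :
    ENNReal.ofReal s ≤ dimH (h '' Ico 0 1) := by
  have hinj : InjOn h (Ico 0 1) := by
    intro u hu v hv huv
    have h1 := hh2 u hu v hv
    rw [huv, sub_self, abs_zero, Real.zero_rpow hs.ne', mul_zero] at h1
    have := abs_nonpos_iff.1 h1
    linarith
  let g := Function.invFunOn h (Ico 0 1)
  have hg : ∀ u ∈ Ico (0 : ℝ) 1, g (h u) = u := fun u hu => hinj.leftInvOn_invFunOn hu
  have hH : HolderOnWith (Real.toNNReal C) (Real.toNNReal s) g (h '' Ico 0 1) := by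
    intro x hx y hy
    obtain ⟨u, hu, rfl⟩ := hx
    obtain ⟨v, hv, rfl⟩ := hy
    rw [hg u hu, hg v hv, edist_dist, edist_dist, Real.dist_eq, Real.dist_eq]
    calc ENNReal.ofReal |u - v| ≤ ENNReal.ofReal (C * |h u - h v| ^ s) :=
          ENNReal.ofReal_le_ofReal (hh2 u hu v hv)
      _ = _ := by
          rw [ENNReal.ofReal_mul hC, ← ENNReal.ofReal_rpow_of_nonneg (abs_nonneg _) hs.le,
            Real.coe_toNNReal s hs.le]
          rfl
  have h1 := hH.dimH_image_le (Real.toNNReal_pos.2 hs)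
  have h2 : g '' (h '' Ico 0 1) = Ico 0 1 := by
    rw [image_image]
    ext u
    constructor
    · rintro ⟨v, hv, rfl⟩
      show g (h v) ∈ Ico (0 : ℝ) 1
      rwa [hg v hv]
    · intro hu
      exact ⟨u, hu, hg u hu⟩
  rw [h2, Real.dimH_of_nonempty_interior (by rw [interior_Ico]; exact ⟨1 / 2, by norm_num⟩)] at h1
  have h3 : ((Real.toNNReal s : ℝ≥0) : ℝ≥0∞) = ENNReal.ofReal s := rfl
  rw [h3, ENNReal.le_div_iff_mul_le (Or.inl (by simpa using hs)) (Or.inl ENNReal.ofReal_ne_top),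
    Module.finrank_self, Nat.cast_one, one_mul] at h1
  exact h1

/-! ### The system -/

/-- the exponents -/
def L (k : ℕ) : ℕ := 2 * (k * k.factorial)

/-- the sizes of the blocks -/
def m (k : ℕ) : ℕ := 2 ^ (L (k + 1) - L k)

/-- the alphabet -/
abbrev Al : Type := Σ k : ℕ, Fin (m k)

/-- the ratio in the block `k` -/
noncomputable def a (k : ℕ) : ℝ := (1 / 4) ^ L (k + 1)

/-- the ratio of a letter -/
noncomputable def r (e : Al) : ℝ := a e.1

/-- the left end of the block `k` -/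
noncomputable def S (k : ℕ) : ℝ := ∑ j ∈ Finset.range k, 2 * (m j : ℝ) * a j

/-- the translation part -/
noncomputable def b (e : Al) : ℝ := S e.1 + (2 * ((e.2 : ℕ) : ℝ) + 1) * a e.1

/-- the maps -/
noncomputable def φ (e : Al) (x : ℝ) : ℝ := b e + r e * x

lemma L_zero : L 0 = 0 := by simp [L]

lemma L_succ_ge (k : ℕ) : k * L k ≤ L (k + 1) := by
  unfold L
  rw [Nat.factorial_succ]
  nlinarith [Nat.zero_le (k * k.factorial), Nat.zero_le k.factorial,
    Nat.zero_le (k * k * k.factorial)]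

lemma L_lt (k : ℕ) : L k + 2 ≤ L (k + 1) := by
  unfold L
  rw [Nat.factorial_succ]
  have h := Nat.factorial_pos k
  nlinarith [Nat.zero_le (k * k.factorial), Nat.zero_le (k * k * k.factorial)]

lemma L_ge (k : ℕ) : 2 * k ≤ L k := by
  induction k with
  | zero => simp
  | succ k ih =>
    have := L_lt k
    omega

lemma L_add (k i : ℕ) : L k + i ≤ L (k + i) := by
  induction i with
  | zero => simp
  | succ i ih =>
    have h1 := L_lt (k + i)
    have h2 : L (k + (i + 1)) = L (k + i + 1) := rfl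
    omega

lemma m_pos (k : ℕ) : 0 < m k := by unfold m; positivity

lemma m_cast (k : ℕ) : (m k : ℝ) = 2 ^ L (k + 1) / 2 ^ L k := by
  unfold m
  push_cast
  have := L_lt k
  rw [pow_sub₀ _ (by norm_num) (by omega)]
  rfl

lemma a_pos (k : ℕ) : 0 < a k := by unfold a; positivity

lemma a_eq (k : ℕ) : a k = ((2 : ℝ) ^ L (k + 1) * 2 ^ L (k + 1))⁻¹ := by
  unfold a
  rw [← mul_pow, one_div, inv_pow]
  norm_num

lemma a_le (k : ℕ) : a k ≤ 1 / 4 := by
  unfold a
  have h1 : 1 ≤ L (k + 1) := by have := L_lt k; omega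
  calc ((1 : ℝ) / 4) ^ L (k + 1) ≤ (1 / 4) ^ 1 :=
        pow_le_pow_of_le_one (by norm_num) (by norm_num) h1
    _ = 1 / 4 := pow_one _

lemma a_anti {j k : ℕ} (h : j ≤ k) : a k ≤ a j := by
  unfold a
  apply pow_le_pow_of_le_one (by norm_num) (by norm_num)
  have h1 := L_add (j + 1) (k - j)
  rw [show j + 1 + (k - j) = k + 1 by omega] at h1
  omega

lemma r_pos (e : Al) : 0 < r e := a_pos _

lemma r_le (e : Al) : r e ≤ 1 / 4 := a_le _

lemma ma_le (k : ℕ) : 2 * (m k : ℝ) * a k ≤ (1 / 2) ^ (k + 1) := by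
  rw [m_cast, a_eq]
  have h1 : 2 * (2 ^ L (k + 1) / 2 ^ L k) * ((2 : ℝ) ^ L (k + 1) * 2 ^ L (k + 1))⁻¹ =
      2 * ((2 : ℝ) ^ L k * 2 ^ L (k + 1))⁻¹ := by field_simp
  rw [h1, ← pow_add]
  have h2 := L_ge (k + 1)
  have h3 : (2 : ℝ) ^ (k + 2) ≤ 2 ^ (L k + L (k + 1)) :=
    pow_le_pow_right₀ (by norm_num) (by omega)
  calc 2 * ((2 : ℝ) ^ (L k + L (k + 1)))⁻¹ ≤ 2 * ((2 : ℝ) ^ (k + 2))⁻¹ := by
        apply mul_le_mul_of_nonneg_left _ (by norm_num)
        exact inv_anti₀ (by positivity) h3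
    _ = (1 / 2) ^ (k + 1) := by
        rw [one_div, inv_pow, pow_succ]
        field_simp

lemma S_nonneg (k : ℕ) : 0 ≤ S k := Finset.sum_nonneg fun j _ => by
  have := a_pos j
  positivity

lemma S_succ (k : ℕ) : S (k + 1) = S k + 2 * (m k : ℝ) * a k := by
  unfold S
  rw [Finset.sum_range_succ]

lemma S_mono {j k : ℕ} (h : j ≤ k) : S j ≤ S k := by
  induction k, h using Nat.le_induction with
  | base => exact le_rfl
  | succ k _ ih =>
    rw [S_succ]
    have := a_pos k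
    have : 0 ≤ 2 * (m k : ℝ) * a k := by positivity
    linarith

lemma S_le (k : ℕ) : S k ≤ 1 - (1 / 2) ^ k := by
  induction k with
  | zero => simp [S]
  | succ k ih =>
    rw [S_succ]
    have := ma_le k
    rw [pow_succ] at this ⊢
    linarith

lemma b_pos (e : Al) : 0 < b e := by
  unfold b
  have h1 := S_nonneg e.1
  have h2 := a_pos e.1
  have : (0 : ℝ) ≤ ((e.2 : ℕ) : ℝ) := by positivity
  nlinarith

lemma b_ge (e : Al) : S e.1 + a e.1 ≤ b e := by
  unfold b
  have h2 := a_pos e.1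
  have : (0 : ℝ) ≤ ((e.2 : ℕ) : ℝ) := by positivity
  nlinarith

lemma b_add_le (e : Al) : b e + r e ≤ S (e.1 + 1) := by
  unfold b r
  rw [S_succ]
  have h2 := a_pos e.1
  have h3 : ((e.2 : ℕ) : ℝ) + 1 ≤ m e.1 := by exact_mod_cast e.2.2
  nlinarith

lemma b_add_le_one (e : Al) : b e + r e ≤ 1 := by
  have h1 := b_add_le e
  have h2 := S_le (e.1 + 1)
  have h3 : (0 : ℝ) < (1 / 2) ^ (e.1 + 1) := by positivity
  linarith

lemma φ_mem (e : Al) {x : ℝ} (hx : x ∈ Icc (0 : ℝ) 1) : φ e x ∈ Icc (0 : ℝ) 1 := by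
  have h1 := b_pos e
  have h2 := r_pos e
  have h3 := b_add_le_one e
  unfold φ
  constructor
  · nlinarith [hx.1]
  · nlinarith [hx.2]

/-- separation -/
lemma sep_lt {e e' : Al} {x y : ℝ} (hx : x ∈ Icc (0 : ℝ) 1) (hy : y ∈ Icc (0 : ℝ) 1)
    (h : e.1 < e'.1) : r e' ≤ φ e' y - φ e x := by
  have h1 := b_add_le e
  have h2 := b_ge e'
  have h3 := S_mono (show e.1 + 1 ≤ e'.1 from h)
  have h4 := r_pos e
  have h5 := r_pos e'
  have h6 : r e' = a e'.1 := rfl
  unfold φ
  nlinarith [hx.2, hy.1]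

lemma sep {e e' : Al} (hne : e ≠ e') {x y : ℝ} (hx : x ∈ Icc (0 : ℝ) 1)
    (hy : y ∈ Icc (0 : ℝ) 1) : min (r e) (r e') ≤ |φ e x - φ e' y| := by
  rcases lt_trichotomy e.1 e'.1 with h | h | h
  · rw [abs_sub_comm]
    exact (min_le_right _ _).trans ((sep_lt hx hy h).trans (le_abs_self _))
  · obtain ⟨k, i⟩ := e
    obtain ⟨k', i'⟩ := e'
    simp only at h
    subst h
    have hii : i ≠ i' := fun h => hne (by rw [h])
    have ha := a_pos k
    have hr : r ⟨k, i⟩ = a k := rfl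
    have hr' : r ⟨k, i'⟩ = a k := rfl
    rw [hr, hr', min_self]
    unfold φ b
    rw [hr, hr']
    simp only
    rcases lt_or_gt_of_ne (fun h => hii (Fin.ext h) : (i : ℕ) ≠ i') with h | h
    · have h1 : ((i : ℕ) : ℝ) + 1 ≤ ((i' : ℕ) : ℝ) := by exact_mod_cast h
      rw [abs_sub_comm]
      refine le_trans ?_ (le_abs_self _)
      nlinarith [hx.2, hy.1]
    · have h1 : ((i' : ℕ) : ℝ) + 1 ≤ ((i : ℕ) : ℝ) := by exact_mod_cast h
      refine le_trans ?_ (le_abs_self _)
      nlinarith [hx.1, hy.2]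
  · exact (min_le_left _ _).trans ((sep_lt hy hx h).trans (le_abs_self _))

/-! ### Compositions -/

/-- product of ratios -/
noncomputable def R (w : ℕ → Al) (n : ℕ) : ℝ := ∏ i ∈ Finset.range n, r (w i)

lemma R_pos (w : ℕ → Al) (n : ℕ) : 0 < R w n := Finset.prod_pos fun _ _ => r_pos _

lemma R_le (w : ℕ → Al) (n : ℕ) : R w n ≤ (1 / 4) ^ n := by
  unfold R
  calc ∏ i ∈ Finset.range n, r (w i) ≤ ∏ i ∈ Finset.range n, (1 / 4 : ℝ) :=
        Finset.prod_le_prod (fun i _ => (r_pos _).le) fun i _ => r_le _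
    _ = (1 / 4) ^ n := by rw [Finset.prod_const, Finset.card_range]

lemma R_succ (w : ℕ → Al) (n : ℕ) : R w (n + 1) = R w n * r (w n) := by
  unfold R
  rw [Finset.prod_range_succ]

lemma comp_succ (w : ℕ → Al) (n : ℕ) (x : ℝ) :
    comp φ w (n + 1) x = comp φ w n (φ (w n) x) := rfl

lemma comp_eq (w : ℕ → Al) (n : ℕ) (x : ℝ) : comp φ w n x = comp φ w n 0 + R w n * x := by
  induction n generalizing x with
  | zero => simp [comp, R]
  | succ n ih =>
    rw [comp_succ, comp_succ, ih (φ (w n) x), ih (φ (w n) 0), R_succ]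
    unfold φ
    ring

lemma comp_mem (w : ℕ → Al) (n : ℕ) {x : ℝ} (hx : x ∈ Icc (0 : ℝ) 1) :
    comp φ w n x ∈ Icc (0 : ℝ) 1 := by
  induction n generalizing x with
  | zero => exact hx
  | succ n ih =>
    rw [comp_succ]
    exact ih (φ_mem _ hx)

/-- Every word defines a point. -/
lemma exists_point (w : ℕ → Al) : ∃ x : ℝ, ∀ n, x ∈ comp φ w n '' Icc 0 1 := by
  have hcomp : ∀ n, IsCompact (comp φ w n '' Icc (0 : ℝ) 1) := fun n => by
    apply isCompact_Icc.image
    have : comp φ w n = fun x => comp φ w n 0 + R w n * x := funext (comp_eq w n)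
    rw [this]
    fun_prop
  have hne : ∀ n, (comp φ w n '' Icc (0 : ℝ) 1).Nonempty := fun n =>
    (nonempty_Icc.2 zero_le_one).image _
  have hanti : ∀ n, comp φ w (n + 1) '' Icc (0 : ℝ) 1 ⊆ comp φ w n '' Icc (0 : ℝ) 1 := by
    rintro n _ ⟨x, hx, rfl⟩
    exact ⟨φ (w n) x, φ_mem _ hx, rfl⟩
  obtain ⟨x, hx⟩ := IsCompact.nonempty_iInter_of_sequence_nonempty_isCompact_isClosed _ hanti hne
    (hcomp 0) (fun n => (hcomp n).isClosed)
  exact ⟨x, fun n => mem_iInter.1 hx n⟩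

/-- Distance of two points whose words differ first at `n`. -/
lemma point_dist {w w' : ℕ → Al} {n : ℕ} (h : ∀ i < n, w i = w' i) (hn : w n ≠ w' n) {x x' : ℝ}
    (hx : x ∈ comp φ w (n + 1) '' Icc 0 1) (hx' : x' ∈ comp φ w' (n + 1) '' Icc 0 1) :
    R w n * min (r (w n)) (r (w' n)) ≤ |x - x'| := by
  obtain ⟨z, hz, rfl⟩ := hx
  obtain ⟨z', hz', rfl⟩ := hx'
  have hc : ∀ k ≤ n, comp φ w' k = comp φ w k := by
    intro k hk
    induction k with
    | zero => rfl
    | succ k ih =>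
      have h1 := ih (by omega)
      show comp φ w' k ∘ φ (w' k) = comp φ w k ∘ φ (w k)
      rw [h1, h k (by omega)]
  rw [comp_succ, comp_succ, hc n le_rfl, comp_eq w n (φ (w n) z), comp_eq w n (φ (w' n) z')]
  have h1 : comp φ w n 0 + R w n * φ (w n) z - (comp φ w n 0 + R w n * φ (w' n) z') =
      R w n * (φ (w n) z - φ (w' n) z') := by ring
  rw [h1, abs_mul, abs_of_pos (R_pos w n)]
  exact mul_le_mul_of_nonneg_left (sep hn hz hz') (R_pos w n).le

/-! ### The system is a conformal iterated function system -/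

lemma fderiv_comp_norm (w : ℕ → Al) (n : ℕ) (x : ℝ) :
    ‖fderiv ℝ (comp φ w n) x‖ = R w n := by
  have h1 : comp φ w n = fun x => comp φ w n 0 + R w n * x := funext (comp_eq w n)
  have h2 : HasDerivAt (comp φ w n) (R w n) x := by
    rw [h1]
    simpa using ((hasDerivAt_id x).const_mul (R w n)).const_add (comp φ w n 0)
  rw [← norm_deriv_eq_norm_fderiv, h2.deriv, Real.norm_eq_abs, abs_of_pos (R_pos w n)]

lemma isCIFS : IsCIFS (Icc (0 : ℝ) 1) φ where
  countable := inferInstance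
  two := by
    have h : 1 < m 0 := by
      unfold m
      rw [L_zero]
      have := L_lt 0
      have h2 : 0 + 1 = 1 := rfl
      exact Nat.one_lt_two_pow (by omega)
    refine ⟨⟨⟨0, ⟨0, by omega⟩⟩, ⟨0, ⟨1, h⟩⟩, ?_⟩⟩
    intro h'
    rw [Sigma.mk.injEq] at h'
    have := eq_of_heq h'.2
    rw [Fin.mk.injEq] at this
    omega
  compact := isCompact_Icc
  connected := isConnected_Icc zero_le_one
  regular := by rw [interior_Icc, closure_Ioo (by norm_num)]
  maps := fun e x hx => φ_mem e hx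
  inj := fun e x _ y _ h => by
    have h1 := r_pos e
    unfold φ at h
    have h2 : r e * (x - y) = 0 := by linarith
    rcases mul_eq_zero.1 h2 with h3 | h3
    · exact absurd h3 h1.ne'
    · linarith
  contr := by
    refine ⟨1 / 4, by
      rw [← NNReal.coe_lt_coe]
      norm_num, fun e => LipschitzOnWith.of_dist_le_mul fun x _ y _ => ?_⟩
    rw [Real.dist_eq, Real.dist_eq]
    have h1 : φ e x - φ e y = r e * (x - y) := by unfold φ; ring
    rw [h1, abs_mul, abs_of_pos (r_pos e)]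
    apply mul_le_mul_of_nonneg_right _ (abs_nonneg _)
    have := r_le e
    push_cast
    exact this
  osc := fun e e' hne => by
    rw [Set.disjoint_left]
    rintro _ ⟨x, hx, rfl⟩ ⟨y, hy, hxy⟩
    rw [interior_Icc] at hx hy
    have h1 := sep hne (Ioo_subset_Icc_self hx) (Ioo_subset_Icc_self hy)
    rw [← hxy, sub_self, abs_zero] at h1
    have := lt_min (r_pos e) (r_pos e')
    linarith
  cone := by
    refine ⟨Real.pi / 2, by positivity, 1, one_pos, fun x hx => ?_⟩
    rw [frontier_Icc (zero_le_one)] at hx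
    rw [interior_Icc]
    rcases hx with rfl | hx
    · refine ⟨1, by norm_num, fun y hy => ?_⟩
      simp only [Set.mem_ofPred_eq, Real.cos_pi_div_two, zero_mul, sub_zero] at hy
      have h1 : inner ℝ y (1 : ℝ) = y := by simp
      rw [h1, Real.norm_eq_abs] at hy
      exact ⟨hy.2.2, lt_of_le_of_lt (le_abs_self _) hy.2.1⟩
    · rw [mem_singleton_iff] at hx
      subst hx
      refine ⟨-1, by norm_num, fun y hy => ?_⟩
      simp only [Set.mem_ofPred_eq, Real.cos_pi_div_two, zero_mul] at hy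
      have h1 : inner ℝ (y - 1) (-1 : ℝ) = 1 - y := by simp
      rw [h1, Real.norm_eq_abs] at hy
      have h2 := neg_abs_le (y - 1)
      constructor <;> linarith [hy.2.2, hy.2.1]
  ext := by
    refine ⟨univ, isOpen_univ, isConnected_univ, subset_univ _, fun e => ⟨mapsTo_univ _ _, ?_, ?_,
      fun x _ => ?_⟩, 1, le_rfl, fun w n x _ y _ => ?_⟩
    · intro x _ y _ h
      have h1 := r_pos e
      unfold φ at h
      have h2 : r e * (x - y) = 0 := by linarith
      rcases mul_eq_zero.1 h2 with h3 | h3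
      · exact absurd h3 h1.ne'
      · linarith
    · apply ContDiff.contDiffOn
      unfold φ
      fun_prop
    · refine ⟨r e • ContinuousLinearMap.id ℝ ℝ, ?_, isConformalMap_const_smul (r_pos e).ne'⟩
      have h1 : HasFDerivAt (fun x : ℝ => b e + r e • x) (r e • ContinuousLinearMap.id ℝ ℝ) x :=
        ((hasFDerivAt_id x).const_smul (r e)).const_add (b e)
      exact h1
    · rw [fderiv_comp_norm, fderiv_comp_norm, one_mul]

/-! ### Upper bound for the dimension -/

/-- Covers at the level `k`. -/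
def Cov (s : ℝ) (k : ℕ) (A : Set ℝ) : Prop :=
  ∃ (ι : Type) (_ : Countable ι) (t : ι → Set ℝ), A ⊆ ⋃ i, t i ∧
    (∀ i, Metric.ediam (t i) ≤ (1 / 2) ^ k) ∧ ∑' i, Metric.ediam (t i) ^ s ≤ 1

lemma φ_lipschitz (e : Al) : LipschitzWith (Real.toNNReal (r e)) (φ e) := by
  refine LipschitzWith.of_dist_le_mul fun x y => ?_
  have h1 : φ e x - φ e y = r e * (x - y) := by unfold φ; ring
  rw [Real.dist_eq, h1, abs_mul, abs_of_pos (r_pos e), Real.coe_toNNReal _ (r_pos e).le,
    Real.dist_eq]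

lemma Cov.zero {s : ℝ} {A : Set ℝ} (hA : A ⊆ Icc 0 1) : Cov s 0 A := by
  have h1 : Metric.ediam (Icc (0 : ℝ) 1) = 1 := by rw [Real.ediam_Icc]; simp
  refine ⟨Unit, inferInstance, fun _ => Icc 0 1, ?_, ?_, ?_⟩
  · rw [iUnion_const]; exact hA
  · intro _
    rw [pow_zero, h1]
  · rw [tsum_fintype]
    simp only [Finset.univ_unique, Finset.sum_const, Finset.card_singleton, one_smul]
    rw [h1, ENNReal.one_rpow]

lemma Cov.extend {s : ℝ} (hs : 0 < s) {k : ℕ} {A B : Set ℝ} (hB : Cov s k B) {F : Set Al}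
    (hsum : ∑' e : F, ENNReal.ofReal (r e ^ s) ≤ 1)
    (hA : ∀ y ∈ A, ∃ e ∈ F, ∃ z ∈ B, y = φ e z) : Cov s (k + 1) A := by
  obtain ⟨ι, hι, t, h1, h2, h3⟩ := hB
  have hd : ∀ (e : Al) i, Metric.ediam (φ e '' t i) ≤
      ENNReal.ofReal (r e) * Metric.ediam (t i) := fun e i => (φ_lipschitz e).ediam_image_le (t i)
  refine ⟨F × ι, inferInstance, fun p => φ p.1 '' t p.2, ?_, ?_, ?_⟩
  · intro y hy
    obtain ⟨e, he, z, hz, rfl⟩ := hA y hy
    obtain ⟨i, hi⟩ := mem_iUnion.1 (h1 hz)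
    exact mem_iUnion.2 ⟨(⟨e, he⟩, i), mem_image_of_mem _ hi⟩
  · rintro ⟨e, i⟩
    refine (hd e i).trans ?_
    rw [pow_succ, mul_comm]
    refine mul_le_mul' (h2 i) ?_
    rw [one_div, ← ENNReal.ofReal_ofNat, ← ENNReal.ofReal_inv_of_pos (by norm_num)]
    apply ENNReal.ofReal_le_ofReal
    have := r_le e
    linarith
  · calc ∑' p : F × ι, Metric.ediam (φ p.1 '' t p.2) ^ s
        ≤ ∑' p : F × ι, ENNReal.ofReal (r p.1 ^ s) * Metric.ediam (t p.2) ^ s := by
          refine ENNReal.tsum_le_tsum fun p => ?_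
          rw [← ENNReal.ofReal_rpow_of_nonneg (r_pos p.1).le hs.le,
            ← ENNReal.mul_rpow_of_nonneg _ _ hs.le]
          exact ENNReal.rpow_le_rpow (hd p.1 p.2) hs.le
      _ = (∑' e : F, ENNReal.ofReal (r e ^ s)) * ∑' i, Metric.ediam (t i) ^ s := by
          rw [ENNReal.tsum_prod']
          simp only [ENNReal.tsum_mul_left, ENNReal.tsum_mul_right]
      _ ≤ 1 * 1 := mul_le_mul' hsum h3
      _ = 1 := one_mul 1

lemma dim_of_Cov {s : ℝ} (hs : 0 < s) {A : Set ℝ} (h : ∀ k, Cov s k A) :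
    dimH A ≤ ENNReal.ofReal s := by
  choose ι hι t h1 h2 h3 using h
  have hlim : Tendsto (fun k : ℕ => ((1 / 2 : ℝ≥0∞)) ^ k) atTop (𝓝 0) :=
    ENNReal.tendsto_pow_atTop_nhds_zero_of_lt_one (by
      rw [one_div]; exact ENNReal.inv_lt_one.2 (by norm_num))
  have hμ : μH[s] A ≤ 1 := by
    refine (Measure.hausdorffMeasure_le_liminf_tsum s A (fun k : ℕ => ((1 / 2 : ℝ≥0∞)) ^ k) hlim t
      (Eventually.of_forall h2) (Eventually.of_forall h1)).trans ?_
    have h4 : Tendsto (fun _ : ℕ => (1 : ℝ≥0∞)) atTop (𝓝 1) := tendsto_const_nhds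
    rw [← h4.liminf_eq]
    exact liminf_le_liminf (Eventually.of_forall h3)
  have h5 : μH[((Real.toNNReal s : ℝ≥0) : ℝ)] A ≠ ⊤ := by
    rw [Real.coe_toNNReal s hs.le]
    exact ne_top_of_le_ne_top ENNReal.one_ne_top hμ
  exact dimH_le_of_hausdorffMeasure_ne_top h5

lemma comp_left (w : ℕ → Al) (n : ℕ) (x : ℝ) :
    comp φ w (n + 1) x = φ (w 0) (comp φ (fun i => w (i + 1)) n x) := by
  induction n generalizing x with
  | zero => rfl
  | succ n ih =>
    rw [comp_succ, ih, comp_succ]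

lemma limitSet_self {F : Set Al} {y : ℝ} (hy : y ∈ limitSet (Icc (0 : ℝ) 1) φ F) :
    ∃ e ∈ F, ∃ z ∈ limitSet (Icc (0 : ℝ) 1) φ F, y = φ e z := by
  obtain ⟨w, hw, h⟩ := hy
  have hr := r_pos (w 0)
  have hz : ∀ z, y = φ (w 0) z → z = (y - b (w 0)) / r (w 0) := by
    intro z hz
    rw [hz]
    unfold φ
    field_simp
    ring
  refine ⟨w 0, hw 0, (y - b (w 0)) / r (w 0), ⟨fun i => w (i + 1), fun n => hw _, fun n => ?_⟩, ?_⟩
  · obtain ⟨x, hx, hxy⟩ := h (n + 1)
    rw [comp_left] at hxy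
    rw [← hz _ hxy.symm]
    exact mem_image_of_mem _ hx
  · unfold φ
    field_simp
    ring

lemma limitSet_subset (F : Set Al) : limitSet (Icc (0 : ℝ) 1) φ F ⊆ Icc 0 1 := by
  rintro y ⟨w, -, h⟩
  obtain ⟨x, hx, rfl⟩ := h 0
  exact hx

/-- The pressure sum of a subsystem. -/
noncomputable def Pr (F : Set Al) (s : ℝ) : ℝ≥0∞ := ∑' e : F, ENNReal.ofReal (r e ^ s)

lemma dim_le {F : Set Al} {s : ℝ} (hs : 0 < s) (h : Pr F s ≤ 1) :
    dimH (limitSet (Icc (0 : ℝ) 1) φ F) ≤ ENNReal.ofReal s := by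
  refine dim_of_Cov hs fun k => ?_
  induction k with
  | zero => exact Cov.zero (limitSet_subset F)
  | succ k ih => exact ih.extend hs h fun y hy => limitSet_self hy

/-! ### Lower bound for the dimension -/

lemma coding (p : Al → ℝ) (hp : ∀ e, 0 < p e) (A : Finset Al) :
    ∃ (dg : ℝ → Al) (st : ℝ → ℝ) (q : Al → ℝ), ∀ u ∈ Ico (0 : ℝ) (∑ e ∈ A, p e),
      dg u ∈ A ∧ st u ∈ Ico (0 : ℝ) 1 ∧ u = q (dg u) + p (dg u) * st u := by
  classical
  induction A using Finset.induction_on with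
  | empty =>
    have h0 : 0 < m 0 := m_pos 0
    refine ⟨fun _ => ⟨0, ⟨0, h0⟩⟩, fun _ => 0, fun _ => 0, fun u hu => ?_⟩
    rw [Finset.sum_empty] at hu
    exact absurd hu.2 (not_lt.2 hu.1)
  | insert e A he ih =>
    obtain ⟨dg, st, q, h⟩ := ih
    refine ⟨fun u => if u < ∑ e ∈ A, p e then dg u else e,
      fun u => if u < ∑ e ∈ A, p e then st u else (u - ∑ e ∈ A, p e) / p e,
      Function.update q e (∑ e ∈ A, p e), fun u hu => ?_⟩
    rw [Finset.sum_insert he] at hu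
    by_cases hlt : u < ∑ e ∈ A, p e
    · simp only [if_pos hlt]
      obtain ⟨h1, h2, h3⟩ := h u ⟨hu.1, hlt⟩
      have hne : dg u ≠ e := fun h4 => he (h4 ▸ h1)
      rw [Function.update_of_ne hne]
      exact ⟨Finset.mem_insert_of_mem h1, h2, h3⟩
    · simp only [if_neg hlt]
      rw [Function.update_self]
      have hpe := hp e
      rw [not_lt] at hlt
      refine ⟨Finset.mem_insert_self _ _, ⟨div_nonneg (by linarith) hpe.le, ?_⟩, ?_⟩
      · rw [div_lt_one hpe]
        linarith [hu.2]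
      · field_simp
        ring

lemma dim_ge_finset {A : Finset Al} {s : ℝ} (hs : 0 < s) (h : 1 ≤ ∑ e ∈ A, r e ^ s) :
    ENNReal.ofReal s ≤ dimH (limitSet (Icc (0 : ℝ) 1) φ (A : Set Al)) := by
  set T : ℝ := ∑ e ∈ A, r e ^ s with hT
  have hTpos : 0 < T := by linarith
  set p : Al → ℝ := fun e => r e ^ s / T with hp
  have hppos : ∀ e, 0 < p e := fun e => div_pos (Real.rpow_pos_of_pos (r_pos e) _) hTpos
  have hple : ∀ e, p e ≤ r e ^ s := fun e =>
    div_le_self (Real.rpow_pos_of_pos (r_pos e) _).le h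
  obtain ⟨dg, st, q, hc⟩ := coding p hppos A
  have hsum : ∑ e ∈ A, p e = 1 := by
    rw [hp, ← Finset.sum_div, ← hT, div_self hTpos.ne']
  rw [hsum] at hc
  have hU : ∀ u ∈ Ico (0 : ℝ) 1, ∀ n, st^[n] u ∈ Ico (0 : ℝ) 1 := by
    intro u hu n
    induction n with
    | zero => exact hu
    | succ n ih =>
      rw [Function.iterate_succ_apply']
      exact (hc _ ih).2.1
  set code : ℝ → ℕ → Al := fun u n => dg (st^[n] u) with hcode
  have hA : ∀ u ∈ Ico (0 : ℝ) 1, ∀ n, code u n ∈ A := fun u hu n => (hc _ (hU u hu n)).1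
  -- agreement
  have hagree : ∀ u ∈ Ico (0 : ℝ) 1, ∀ v ∈ Ico (0 : ℝ) 1, ∀ n, (∀ i < n, code u i = code v i) →
      u - v = (∏ i ∈ Finset.range n, p (code u i)) * (st^[n] u - st^[n] v) := by
    intro u hu v hv n
    induction n with
    | zero => intro _; simp
    | succ n ih =>
      intro hi
      rw [ih fun i h => hi i (by omega), Finset.prod_range_succ, mul_assoc]
      congr 1
      have h1 := (hc _ (hU u hu n)).2.2
      have h2 := (hc _ (hU v hv n)).2.2
      have h3 : dg (st^[n] u) = dg (st^[n] v) := hi n (by omega)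
      rw [Function.iterate_succ_apply', Function.iterate_succ_apply']
      rw [← h3] at h2
      show st^[n] u - st^[n] v = p (dg (st^[n] u)) * (st (st^[n] u) - st (st^[n] v))
      linarith
  have hprod : ∀ (u : ℝ) (n : ℕ), ∏ i ∈ Finset.range n, p (code u i) ≤ R (code u) n ^ s := by
    intro u n
    unfold R
    rw [← Real.finsetProd_rpow _ _ (fun i _ => (r_pos _).le)]
    exact Finset.prod_le_prod (fun i _ => (hppos _).le) fun i _ => hple _
  have hprod0 : ∀ (u : ℝ) (n : ℕ), 0 ≤ ∏ i ∈ Finset.range n, p (code u i) := fun u n =>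
    Finset.prod_nonneg fun i _ => (hppos _).le
  choose pt hpt using exists_point
  -- least ratio
  have hAne : A.Nonempty := by
    by_contra hne
    rw [Finset.not_nonempty_iff_eq_empty] at hne
    rw [hne, Finset.sum_empty] at hT
    linarith
  obtain ⟨ρ, hρ, hρA⟩ : ∃ ρ : ℝ, 0 < ρ ∧ ∀ e ∈ A, ρ ≤ r e := by
    obtain ⟨e0, he0, hmin⟩ := A.exists_min_image r hAne
    exact ⟨r e0, r_pos e0, hmin⟩
  have hdim := dim_ge (h := fun u => pt (code u)) (C := (ρ⁻¹) ^ s) (s := s) (by positivity) hs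
    (fun u hu v hv => by
      have habs : ∀ n, |st^[n] u - st^[n] v| ≤ 1 := by
        intro n
        have h1 := hU u hu n
        have h2 := hU v hv n
        rw [abs_le]
        constructor <;> linarith [h1.1, h1.2, h2.1, h2.2]
      by_cases hcodes : ∀ n, code u n = code v n
      · have h1 : ∀ n : ℕ, |u - v| ≤ ((1 / 4 : ℝ) ^ s) ^ n := by
          intro n
          rw [hagree u hu v hv n fun i _ => hcodes i, abs_mul, abs_of_nonneg (hprod0 u n)]
          have h2 := hprod u n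
          have h3 : R (code u) n ^ s ≤ ((1 / 4 : ℝ) ^ s) ^ n := by
            rw [← Real.rpow_natCast, ← Real.rpow_mul (by norm_num), mul_comm s,
              Real.rpow_mul (by norm_num), Real.rpow_natCast]
            exact Real.rpow_le_rpow (R_pos _ _).le (R_le _ _) hs.le
          have h4 := habs n
          have h5 := hprod0 u n
          have h6 := abs_nonneg (st^[n] u - st^[n] v)
          nlinarith
        have h2 : Tendsto (fun n : ℕ => ((1 / 4 : ℝ) ^ s) ^ n) atTop (𝓝 0) :=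
          tendsto_pow_atTop_nhds_zero_of_lt_one (by positivity)
            (Real.rpow_lt_one (by norm_num) (by norm_num) hs)
        have h3 := ge_of_tendsto' h2 h1
        refine h3.trans ?_
        positivity
      · push Not at hcodes
        classical
        let n := Nat.find hcodes
        have hn : code u n ≠ code v n := Nat.find_spec hcodes
        have hlt : ∀ i < n, code u i = code v i := fun i hi => by
          have := Nat.find_min hcodes hi
          push Not at this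
          exact this
        have h1 := point_dist hlt hn (hpt (code u) (n + 1)) (hpt (code v) (n + 1))
        have h2 : ρ ≤ min (r (code u n)) (r (code v n)) :=
          le_min (hρA _ (hA u hu n)) (hρA _ (hA v hv n))
        have hR := R_pos (code u) n
        have h3 : R (code u) n ≤ ρ⁻¹ * |pt (code u) - pt (code v)| := by
          rw [inv_mul_eq_div, le_div_iff₀ hρ]
          exact (mul_le_mul_of_nonneg_left h2 hR.le).trans h1
        rw [hagree u hu v hv n hlt, abs_mul, abs_of_nonneg (hprod0 u n),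
          ← Real.mul_rpow (by positivity) (abs_nonneg _)]
        have h4 := hprod u n
        have h5 := habs n
        have h6 := abs_nonneg (st^[n] u - st^[n] v)
        have h7 := hprod0 u n
        calc (∏ i ∈ Finset.range n, p (code u i)) * |st^[n] u - st^[n] v|
            ≤ ∏ i ∈ Finset.range n, p (code u i) := mul_le_of_le_one_right h7 h5
          _ ≤ R (code u) n ^ s := h4
          _ ≤ _ := Real.rpow_le_rpow hR.le h3 hs.le)
  refine hdim.trans (dimH_mono ?_)
  rintro _ ⟨u, hu, rfl⟩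
  exact ⟨code u, fun n => hA u hu n, hpt (code u)⟩

lemma limitSet_mono {F G : Set Al} (h : F ⊆ G) :
    limitSet (Icc (0 : ℝ) 1) φ F ⊆ limitSet (Icc (0 : ℝ) 1) φ G := by
  rintro x ⟨w, hw, hx⟩
  exact ⟨w, fun n => h (hw n), hx⟩

lemma le_dim {F : Set Al} {s : ℝ} (hs : 0 < s) (h : 1 < Pr F s) :
    ENNReal.ofReal s ≤ dimH (limitSet (Icc (0 : ℝ) 1) φ F) := by
  classical
  unfold Pr at h
  rw [ENNReal.tsum_eq_iSup_sum, lt_iSup_iff] at h
  obtain ⟨B, hB⟩ := h
  let A : Finset Al := B.map (Function.Embedding.subtype _)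
  have hA : ∑ e ∈ A, r e ^ s = ∑ e ∈ B, r (e : Al) ^ s := by
    rw [Finset.sum_map]; rfl
  have h1 : 1 ≤ ∑ e ∈ A, r e ^ s := by
    rw [hA]
    rw [← ENNReal.ofReal_sum_of_nonneg (fun e _ => (Real.rpow_pos_of_pos (r_pos _) _).le)] at hB
    exact (ENNReal.one_lt_ofReal.1 hB).le
  refine (dim_ge_finset hs h1).trans (dimH_mono (limitSet_mono ?_))
  intro e he
  rw [Finset.mem_coe, Finset.mem_map] at he
  obtain ⟨e', -, rfl⟩ := he
  exact e'.2

/-- Comparison of the pressure at two exponents. -/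
lemma Pr_compare {F : Set Al} {s t : ℝ} (hst : s ≤ t) :
    ENNReal.ofReal (4 ^ (t - s)) * Pr F t ≤ Pr F s := by
  unfold Pr
  rw [← ENNReal.tsum_mul_left]
  refine ENNReal.tsum_le_tsum fun e => ?_
  rw [← ENNReal.ofReal_mul (by positivity)]
  apply ENNReal.ofReal_le_ofReal
  have h1 := r_pos (e : Al)
  have h2 := r_le (e : Al)
  have h3 : r (e : Al) ^ t = r (e : Al) ^ s * r (e : Al) ^ (t - s) := by
    rw [← Real.rpow_add h1]; congr 1; ring
  have h4 : (4 : ℝ) ^ (t - s) * r (e : Al) ^ (t - s) ≤ 1 := by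
    rw [← Real.mul_rpow (by norm_num) h1.le]
    exact Real.rpow_le_one (by positivity) (by linarith) (by linarith)
  rw [h3]
  have h5 : 0 < r (e : Al) ^ s := Real.rpow_pos_of_pos h1 _
  calc (4 : ℝ) ^ (t - s) * (r (e : Al) ^ s * r (e : Al) ^ (t - s)) =
        (4 : ℝ) ^ (t - s) * r (e : Al) ^ (t - s) * r (e : Al) ^ s := by ring
    _ ≤ 1 * r (e : Al) ^ s := mul_le_mul_of_nonneg_right h4 h5.le
    _ = r (e : Al) ^ s := one_mul _

lemma dim_eq {F : Set Al} {s : ℝ} (hs : 0 < s) (h : Pr F s = 1) :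
    dimH (limitSet (Icc (0 : ℝ) 1) φ F) = ENNReal.ofReal s := by
  refine le_antisymm (dim_le hs h.le) ?_
  refine ofReal_le_of_forall hs fun t ht hts => le_dim ht ?_
  have h1 := Pr_compare (F := F) hts.le
  rw [h, mul_one] at h1
  refine lt_of_lt_of_le ?_ h1
  rw [ENNReal.one_lt_ofReal]
  exact Real.one_lt_rpow (by norm_num) (by linarith)

/-! ### The spectrum below `1/2` -/

/-- the number of letters of `F` in the block `k` -/
noncomputable def cnt (F : Set Al) (k : ℕ) : ℕ := Nat.card {i : Fin (m k) // (⟨k, i⟩ : Al) ∈ F}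

lemma cnt_le (F : Set Al) (k : ℕ) : cnt F k ≤ m k := by
  unfold cnt
  refine (Nat.card_le_card_of_injective (fun i : {i : Fin (m k) // (⟨k, i⟩ : Al) ∈ F} => i.1)
    Subtype.val_injective).trans ?_
  rw [Nat.card_eq_fintype_card, Fintype.card_fin]

lemma Pr_eq (F : Set Al) (s : ℝ) : Pr F s = ∑' k, (cnt F k : ℝ≥0∞) * ENNReal.ofReal (a k ^ s) := by
  classical
  unfold Pr
  rw [tsum_subtype F (fun e : Al => ENNReal.ofReal (r e ^ s)), ENNReal.tsum_sigma']
  refine tsum_congr fun k => ?_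
  rw [tsum_fintype]
  have h1 : ∀ i : Fin (m k), F.indicator (fun e : Al => ENNReal.ofReal (r e ^ s)) ⟨k, i⟩ =
      if (⟨k, i⟩ : Al) ∈ F then ENNReal.ofReal (a k ^ s) else 0 := by
    intro i
    by_cases hi : (⟨k, i⟩ : Al) ∈ F
    · rw [indicator_of_mem hi, if_pos hi]; rfl
    · rw [indicator_of_notMem hi, if_neg hi]
  rw [Finset.sum_congr rfl fun i _ => h1 i, ← Finset.sum_filter, Finset.sum_const, nsmul_eq_mul]
  congr 1
  unfold cnt
  rw [Nat.card_eq_fintype_card, Fintype.card_subtype]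

/-- the sizes with exponent `s`, with a shift -/
noncomputable def al (s : ℝ) (k : ℕ) : ℝ := ((1 / 4 : ℝ) ^ L k) ^ s

lemma al_pos (s : ℝ) (k : ℕ) : 0 < al s k := Real.rpow_pos_of_pos (by positivity) _

lemma al_zero (s : ℝ) : al s 0 = 1 := by
  unfold al
  rw [L_zero, pow_zero, Real.one_rpow]

lemma a_rpow (s : ℝ) (k : ℕ) : a k ^ s = al s (k + 1) := rfl

lemma al_le {s : ℝ} (hs2 : s ≤ 1 / 2) (k : ℕ) : al s k ≤ m k * al s (k + 1) := by
  have hD : L (k + 1) = L k + (L (k + 1) - L k) := by have := L_lt k; omega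
  have h1 : al s (k + 1) = al s k * ((1 / 4 : ℝ) ^ (L (k + 1) - L k)) ^ s := by
    unfold al
    rw [← Real.mul_rpow (by positivity) (by positivity), ← pow_add, ← hD]
  have h2 : (((1 : ℝ) / 4) ^ (L (k + 1) - L k)) ^ (1 / 2 : ℝ) ≤
      (((1 : ℝ) / 4) ^ (L (k + 1) - L k)) ^ s := by
    apply Real.rpow_le_rpow_of_exponent_ge (by positivity) _ hs2
    exact pow_le_one₀ (by norm_num) (by norm_num)
  have h3 : (((1 : ℝ) / 4) ^ (L (k + 1) - L k)) ^ (1 / 2 : ℝ) = (1 / 2) ^ (L (k + 1) - L k) := by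
    rw [← Real.sqrt_eq_rpow, show (1 : ℝ) / 4 = (1 / 2) ^ 2 by norm_num, ← pow_mul,
      mul_comm 2, pow_mul, Real.sqrt_sq (by positivity)]
  have h4 : (m k : ℝ) * (1 / 2) ^ (L (k + 1) - L k) = 1 := by
    unfold m
    push_cast
    rw [← mul_pow]
    norm_num
  have h5 := al_pos s k
  rw [h1]
  have h6 : (0 : ℝ) < m k := by exact_mod_cast m_pos k
  rw [h3] at h2
  calc al s k = al s k * ((m k : ℝ) * (1 / 2) ^ (L (k + 1) - L k)) := by rw [h4, mul_one]
    _ ≤ al s k * ((m k : ℝ) * (((1 : ℝ) / 4) ^ (L (k + 1) - L k)) ^ s) := by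
        apply mul_le_mul_of_nonneg_left _ h5.le
        exact mul_le_mul_of_nonneg_left h2 h6.le
    _ = _ := by ring

lemma al_tendsto {s : ℝ} (hs : 0 < s) : Tendsto (al s) atTop (𝓝 0) := by
  have h1 : Tendsto (fun k : ℕ => ((1 / 4 : ℝ) ^ s) ^ k) atTop (𝓝 0) :=
    tendsto_pow_atTop_nhds_zero_of_lt_one (by positivity)
      (Real.rpow_lt_one (by norm_num) (by norm_num) hs)
  refine squeeze_zero (fun k => (al_pos s k).le) (fun k => ?_) h1
  unfold al
  rw [← Real.rpow_natCast (_ ^ s), ← Real.rpow_mul (by norm_num), mul_comm s,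
    Real.rpow_mul (by norm_num), Real.rpow_natCast]
  apply Real.rpow_le_rpow (by positivity) _ hs.le
  apply pow_le_pow_of_le_one (by norm_num) (by norm_num)
  have := L_ge k
  omega

/-- the remainders of the greedy expansion of `1` -/
noncomputable def rem (s : ℝ) : ℕ → ℝ
  | 0 => 1
  | k + 1 => rem s k - (⌊rem s k / al s (k + 1)⌋₊ : ℝ) * al s (k + 1)

lemma rem_bounds {s : ℝ} (k : ℕ) : 0 ≤ rem s k ∧ rem s k ≤ al s k := by
  induction k with
  | zero => rw [al_zero]; exact ⟨zero_le_one, le_rfl⟩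
  | succ k ih =>
    have h1 := al_pos s (k + 1)
    have h2 := Nat.floor_le (div_nonneg ih.1 h1.le)
    have h3 := Nat.lt_floor_add_one (rem s k / al s (k + 1))
    rw [le_div_iff₀ h1] at h2
    rw [div_lt_iff₀ h1] at h3
    constructor
    · show 0 ≤ rem s k - (⌊rem s k / al s (k + 1)⌋₊ : ℝ) * al s (k + 1)
      linarith
    · show rem s k - (⌊rem s k / al s (k + 1)⌋₊ : ℝ) * al s (k + 1) ≤ al s (k + 1)
      linarith

/-- the greedy subsystem -/
noncomputable def gr (s : ℝ) : Set Al := {e | (e.2 : ℕ) < ⌊rem s e.1 / al s (e.1 + 1)⌋₊}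

lemma cnt_gr {s : ℝ} (hs2 : s ≤ 1 / 2) (k : ℕ) :
    cnt (gr s) k = ⌊rem s k / al s (k + 1)⌋₊ := by
  classical
  have h1 : ⌊rem s k / al s (k + 1)⌋₊ ≤ m k := by
    have h2 := al_pos s (k + 1)
    rw [← Nat.cast_le (α := ℝ)]
    refine (Nat.floor_le (div_nonneg (rem_bounds k).1 h2.le)).trans ?_
    rw [div_le_iff₀ h2]
    exact (rem_bounds k).2.trans (al_le hs2 k)
  unfold cnt
  rw [Nat.card_eq_fintype_card, Fintype.card_subtype]
  have h2 : (Finset.univ.filter fun i : Fin (m k) => (⟨k, i⟩ : Al) ∈ gr s) =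
      Finset.univ.filter fun i : Fin (m k) => (i : ℕ) < ⌊rem s k / al s (k + 1)⌋₊ := by
    ext i
    simp only [Finset.mem_filter, Finset.mem_univ, true_and]
    rfl
  rw [h2, Fin.card_filter_val_lt, min_eq_right h1]

lemma Pr_gr {s : ℝ} (hs : 0 < s) (hs2 : s ≤ 1 / 2) : Pr (gr s) s = 1 := by
  rw [Pr_eq]
  have h1 : ∀ k, ((cnt (gr s) k : ℕ) : ℝ≥0∞) * ENNReal.ofReal (a k ^ s) =
      ENNReal.ofReal (rem s k - rem s (k + 1)) := by
    intro k
    rw [cnt_gr hs2, a_rpow, ← ENNReal.ofReal_natCast, ← ENNReal.ofReal_mul (by positivity)]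
    congr 1
    show _ = rem s k - (rem s k - (⌊rem s k / al s (k + 1)⌋₊ : ℝ) * al s (k + 1))
    ring
  simp_rw [h1]
  have hnn : ∀ k, 0 ≤ rem s k - rem s (k + 1) := by
    intro k
    have : rem s k - rem s (k + 1) = (⌊rem s k / al s (k + 1)⌋₊ : ℝ) * al s (k + 1) := by
      show rem s k - (rem s k - (⌊rem s k / al s (k + 1)⌋₊ : ℝ) * al s (k + 1)) = _
      ring
    rw [this]
    exact mul_nonneg (by positivity) (al_pos s _).le
  have hlim : Tendsto (rem s) atTop (𝓝 0) :=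
    squeeze_zero (fun k => (rem_bounds k).1) (fun k => (rem_bounds k).2) (al_tendsto hs)
  have hsum : HasSum (fun k => rem s k - rem s (k + 1)) 1 := by
    rw [hasSum_iff_tendsto_nat_of_nonneg hnn]
    have h2 : ∀ n, ∑ i ∈ Finset.range n, (rem s i - rem s (i + 1)) = 1 - rem s n := by
      intro n
      rw [Finset.sum_range_sub']
      rfl
    simp_rw [h2]
    simpa using hlim.const_sub 1
  rw [← ENNReal.ofReal_tsum_of_nonneg hnn hsum.summable, hsum.tsum_eq, ENNReal.ofReal_one]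

lemma nonempty_of_Pr {F : Set Al} {s : ℝ} (h : Pr F s ≠ 0) : F.Nonempty := by
  by_contra hne
  rw [not_nonempty_iff_eq_empty] at hne
  subst hne
  apply h
  unfold Pr
  exact tsum_empty

lemma mem_spectrum_low {s : ℝ} (hs : 0 < s) (hs2 : s ≤ 1 / 2) :
    s ∈ spectrum (Icc (0 : ℝ) 1) φ :=
  ⟨hs.le, gr s, nonempty_of_Pr (by rw [Pr_gr hs hs2]; exact one_ne_zero),
    dim_eq hs (Pr_gr hs hs2)⟩

/-! ### The spectrum just above `1/2` -/

/-- the first block with one letter of the block `k + 1` -/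
def fk (k : ℕ) : Set Al := {e | e.1 = 0 ∨ (e.1 = k + 1 ∧ (e.2 : ℕ) = 0)}

lemma cnt_fk_zero (k : ℕ) : cnt (fk k) 0 = m 0 := by
  classical
  unfold cnt
  rw [Nat.card_eq_fintype_card, Fintype.card_subtype]
  have h1 : (Finset.univ.filter fun i : Fin (m 0) => (⟨0, i⟩ : Al) ∈ fk k) = Finset.univ :=
    Finset.filter_true_of_mem fun i _ => Or.inl rfl
  rw [h1, Finset.card_univ, Fintype.card_fin]

lemma cnt_fk_self (k : ℕ) : cnt (fk k) (k + 1) = 1 := by
  classical
  unfold cnt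
  rw [Nat.card_eq_fintype_card, Fintype.card_subtype, Finset.card_eq_one]
  refine ⟨⟨0, m_pos _⟩, ?_⟩
  ext i
  simp only [Finset.mem_filter, Finset.mem_univ, true_and, Finset.mem_singleton]
  constructor
  · rintro (h | h)
    · exact absurd h (Nat.succ_ne_zero k)
    · exact Fin.ext h.2
  · rintro rfl
    exact Or.inr ⟨rfl, rfl⟩

lemma cnt_fk_other {k j : ℕ} (h0 : j ≠ 0) (h1 : j ≠ k + 1) : cnt (fk k) j = 0 := by
  unfold cnt
  rw [Nat.card_eq_zero]
  left
  constructor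
  rintro ⟨i, hi⟩
  rcases hi with h | h
  · exact h0 h
  · exact h1 h.1

lemma Pr_fk (k : ℕ) (s : ℝ) : Pr (fk k) s = ENNReal.ofReal (m 0 * a 0 ^ s + a (k + 1) ^ s) := by
  rw [Pr_eq, tsum_eq_sum (s := {0, k + 1})]
  · rw [Finset.sum_pair (Nat.succ_ne_zero k).symm, cnt_fk_zero, cnt_fk_self, Nat.cast_one, one_mul,
      ENNReal.ofReal_add, ENNReal.ofReal_mul (by positivity), ENNReal.ofReal_natCast]
    · have := a_pos 0
      positivity
    · have := a_pos (k + 1)
      positivity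
  · intro j hj
    rw [Finset.mem_insert, Finset.mem_singleton, not_or] at hj
    rw [cnt_fk_other hj.1 hj.2, Nat.cast_zero, zero_mul]

lemma block_zero {s : ℝ} : (m 0 : ℝ) * a 0 ^ s = 2 ^ ((L 1 : ℝ) * (1 - 2 * s)) := by
  have h1 : (m 0 : ℝ) = 2 ^ (L 1 : ℝ) := by
    unfold m
    rw [L_zero]
    push_cast
    rw [Real.rpow_natCast]
    rfl
  have h2 : a 0 ^ s = (2 : ℝ) ^ (-(2 * (L 1 : ℝ) * s)) := by
    unfold a
    rw [show (1 : ℝ) / 4 = 2 ^ (-2 : ℝ) by
      rw [Real.rpow_neg (by norm_num)]; norm_num, ← Real.rpow_natCast,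
      ← Real.rpow_mul (by norm_num), ← Real.rpow_mul (by norm_num)]
    congr 1
    ring
  rw [h1, h2, ← Real.rpow_add (by norm_num)]
  congr 1
  ring

lemma mem_spectrum_above {ε : ℝ} (hε : 0 < ε) :
    ∃ x ∈ spectrum (Icc (0 : ℝ) 1) φ, 1 / 2 < x ∧ x < 1 / 2 + ε := by
  have hL1 : (0 : ℝ) < L 1 := by
    have := L_lt 0
    have h2 : 0 < L 1 := by have : L (0 + 1) = L 1 := rfl; omega
    exact_mod_cast h2
  -- upper bound for large `k`
  have hs0 : m 0 * a 0 ^ (1 / 2 + ε / 2) < (1 : ℝ) := by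
    rw [block_zero]
    apply Real.rpow_lt_one_of_one_lt_of_neg (by norm_num)
    nlinarith
  have hlim : Tendsto (fun k : ℕ => (m 0 : ℝ) * a 0 ^ (1 / 2 + ε / 2) +
      a (k + 1) ^ (1 / 2 + ε / 2)) atTop (𝓝 ((m 0 : ℝ) * a 0 ^ (1 / 2 + ε / 2) + 0)) := by
    refine tendsto_const_nhds.add ?_
    have h1 := (al_tendsto (show (0 : ℝ) < 1 / 2 + ε / 2 by linarith)).comp
      (tendsto_add_atTop_nat 2)
    exact h1
  rw [add_zero] at hlim
  obtain ⟨k, hk⟩ := (hlim.eventually (gt_mem_nhds hs0)).exists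
  have hup : dimH (limitSet (Icc (0 : ℝ) 1) φ (fk k)) ≤ ENNReal.ofReal (1 / 2 + ε / 2) := by
    apply dim_le (by linarith)
    rw [Pr_fk, ENNReal.ofReal_le_one]
    exact hk.le
  -- lower bound
  have hcont : ContinuousAt (fun s : ℝ => (m 0 : ℝ) * a 0 ^ s + a (k + 1) ^ s) (1 / 2) := by
    have h1 := a_pos 0
    have h2 := a_pos (k + 1)
    exact ((Real.continuousAt_const_rpow h1.ne').const_mul _).add
      (Real.continuousAt_const_rpow h2.ne')
  have hval : 1 < (m 0 : ℝ) * a 0 ^ (1 / 2 : ℝ) + a (k + 1) ^ (1 / 2 : ℝ) := by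
    rw [block_zero]
    have h1 : (L 1 : ℝ) * (1 - 2 * (1 / 2)) = 0 := by ring
    rw [h1, Real.rpow_zero]
    have h2 := Real.rpow_pos_of_pos (a_pos (k + 1)) (1 / 2)
    linarith
  have hev := hcont.eventually (lt_mem_nhds hval)
  obtain ⟨η, hη, hball⟩ := Metric.eventually_nhds_iff.1 hev
  have hlow : ENNReal.ofReal (1 / 2 + η / 2) ≤ dimH (limitSet (Icc (0 : ℝ) 1) φ (fk k)) := by
    apply le_dim (by linarith)
    rw [Pr_fk, ENNReal.one_lt_ofReal]
    apply hball
    rw [Real.dist_eq, show (1 / 2 + η / 2 - 1 / 2 : ℝ) = η / 2 by ring, abs_of_pos (by linarith)]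
    linarith
  have htop : dimH (limitSet (Icc (0 : ℝ) 1) φ (fk k)) ≠ ⊤ :=
    ne_top_of_le_ne_top ENNReal.ofReal_ne_top hup
  refine ⟨(dimH (limitSet (Icc (0 : ℝ) 1) φ (fk k))).toReal,
    ⟨ENNReal.toReal_nonneg, fk k, ⟨⟨0, ⟨0, m_pos 0⟩⟩, Or.inl rfl⟩,
      (ENNReal.ofReal_toReal htop).symm⟩, ?_, ?_⟩
  · have h1 := (ENNReal.ofReal_le_iff_le_toReal htop).1 hlow
    linarith
  · have h1 := (ENNReal.toReal_mono ENNReal.ofReal_ne_top hup)
    rw [ENNReal.toReal_ofReal (by linarith)] at h1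
    linarith

/-! ### The spectrum above `1/2` -/

lemma ma_eq (k : ℕ) (δ : ℝ) : (m k : ℝ) * a k ^ (1 / 2 + δ / 2) =
    2 ^ (-(L k : ℝ) - δ * (L (k + 1) : ℝ)) := by
  have h1 : (m k : ℝ) = 2 ^ ((L (k + 1) : ℝ) - L k) := by
    rw [m_cast, Real.rpow_sub (by norm_num), Real.rpow_natCast, Real.rpow_natCast]
  have h2 : a k ^ (1 / 2 + δ / 2) = (2 : ℝ) ^ (-(L (k + 1) : ℝ) * (1 + δ)) := by
    unfold a
    rw [show (1 : ℝ) / 4 = 2 ^ (-2 : ℝ) by
      rw [Real.rpow_neg (by norm_num)]; norm_num, ← Real.rpow_natCast,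
      ← Real.rpow_mul (by norm_num), ← Real.rpow_mul (by norm_num)]
    congr 1
    ring
  rw [h1, h2, ← Real.rpow_add (by norm_num)]
  congr 1
  ring

/-- The tails of the pressure. -/
lemma tail_le {δ : ℝ} (hδ : 0 < δ) : ∃ C : ℝ, 0 < C ∧ ∀ k : ℕ,
    ∑' j, (m (j + k) : ℝ≥0∞) * ENNReal.ofReal (a (j + k) ^ (1 / 2 + δ / 2)) ≤
      ENNReal.ofReal (C * 2 ^ (-δ * (L (k + 1) : ℝ))) := by
  have hg0 : (0 : ℝ) < 2 ^ (-δ) := by positivity
  have hg1 : (2 : ℝ) ^ (-δ) < 1 := Real.rpow_lt_one_of_one_lt_of_neg (by norm_num) (by linarith)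
  refine ⟨(1 - 2 ^ (-δ))⁻¹, by rw [inv_pos]; linarith, fun k => ?_⟩
  have hterm : ∀ j : ℕ, (m (j + k) : ℝ≥0∞) * ENNReal.ofReal (a (j + k) ^ (1 / 2 + δ / 2)) ≤
      ENNReal.ofReal (2 ^ (-δ * (L (k + 1) : ℝ)) * ((2 : ℝ) ^ (-δ)) ^ j) := by
    intro j
    rw [← ENNReal.ofReal_natCast, ← ENNReal.ofReal_mul (by positivity), ma_eq]
    apply ENNReal.ofReal_le_ofReal
    rw [← Real.rpow_natCast (2 ^ (-δ)) j, ← Real.rpow_mul (by norm_num),
      ← Real.rpow_add (by norm_num)]
    apply Real.rpow_le_rpow_of_exponent_le (by norm_num)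
    have h1 := L_add (k + 1) j
    have h2 : L (j + k + 1) = L (k + 1 + j) := by congr 1; omega
    rw [h2]
    have h3 : ((L (k + 1) : ℝ)) + j ≤ L (k + 1 + j) := by exact_mod_cast h1
    have h4 : (0 : ℝ) ≤ L (j + k) := by positivity
    nlinarith
  refine (ENNReal.tsum_le_tsum hterm).trans ?_
  have hs : Summable fun j : ℕ => (2 : ℝ) ^ (-δ * (L (k + 1) : ℝ)) * ((2 : ℝ) ^ (-δ)) ^ j :=
    (summable_geometric_of_lt_one hg0.le hg1).mul_left _
  rw [← ENNReal.ofReal_tsum_of_nonneg (fun j => by positivity) hs, tsum_mul_left,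
    tsum_geometric_of_lt_one hg0.le hg1, mul_comm]

/-- splitting of the pressure -/
lemma Pr_split (F : Set Al) (s : ℝ) (k : ℕ) :
    Pr F s = ∑ j ∈ Finset.range k, (cnt F j : ℝ≥0∞) * ENNReal.ofReal (a j ^ s) +
      ∑' j, (cnt F (j + k) : ℝ≥0∞) * ENNReal.ofReal (a (j + k) ^ s) := by
  rw [Pr_eq]
  exact (Summable.sum_add_tsum_nat_add'
    (f := fun j => (cnt F j : ℝ≥0∞) * ENNReal.ofReal (a j ^ s)) (k := k) ENNReal.summable).symm

/-- The head of the pressure. -/
noncomputable def hd (c : ℕ → ℕ) (k : ℕ) (s : ℝ) : ℝ := ∑ j ∈ Finset.range k, (c j : ℝ) * a j ^ s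

lemma hd_compare (c : ℕ → ℕ) (k : ℕ) {s t : ℝ} (hst : s ≤ t) :
    4 ^ (t - s) * hd c k t ≤ hd c k s := by
  unfold hd
  rw [Finset.mul_sum]
  refine Finset.sum_le_sum fun j _ => ?_
  have h1 := a_pos j
  have h2 := a_le j
  have h3 : a j ^ t = a j ^ s * a j ^ (t - s) := by
    rw [← Real.rpow_add h1]; congr 1; ring
  have h4 : (4 : ℝ) ^ (t - s) * a j ^ (t - s) ≤ 1 := by
    rw [← Real.mul_rpow (by norm_num) h1.le]
    exact Real.rpow_le_one (by positivity) (by linarith) (by linarith)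
  have h5 : 0 ≤ (c j : ℝ) * a j ^ s := mul_nonneg (by positivity) (Real.rpow_nonneg h1.le _)
  rw [h3]
  calc (4 : ℝ) ^ (t - s) * ((c j : ℝ) * (a j ^ s * a j ^ (t - s))) =
        (4 : ℝ) ^ (t - s) * a j ^ (t - s) * ((c j : ℝ) * a j ^ s) := by ring
    _ ≤ 1 * ((c j : ℝ) * a j ^ s) := mul_le_mul_of_nonneg_right h4 h5
    _ = _ := one_mul _

lemma hd_eq (F : Set Al) (k : ℕ) (s : ℝ) :
    ∑ j ∈ Finset.range k, (cnt F j : ℝ≥0∞) * ENNReal.ofReal (a j ^ s) =
      ENNReal.ofReal (hd (cnt F) k s) := by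
  unfold hd
  rw [ENNReal.ofReal_sum_of_nonneg fun j _ => by
    have := a_pos j
    positivity]
  refine Finset.sum_congr rfl fun j _ => ?_
  rw [ENNReal.ofReal_mul (by positivity), ENNReal.ofReal_natCast]

lemma hd_nonneg (c : ℕ → ℕ) (k : ℕ) (s : ℝ) : 0 ≤ hd c k s :=
  Finset.sum_nonneg fun j _ => by
    have := a_pos j
    positivity

lemma hd_congr {c c' : ℕ → ℕ} {k : ℕ} (h : ∀ j < k, c j = c' j) (s : ℝ) :
    hd c k s = hd c' k s :=
  Finset.sum_congr rfl fun j hj => by rw [h j (Finset.mem_range.1 hj)]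

/-- Two dimensions with the same first counts are close. -/
lemma close {δ τ : ℝ} (hδ : 0 < δ) (hτ : τ ≤ 1 / 2) {k : ℕ} (hτ0 : 0 ≤ τ)
    (htail : ∑' j, (m (j + k) : ℝ≥0∞) * ENNReal.ofReal (a (j + k) ^ (1 / 2 + δ / 2)) ≤
      ENNReal.ofReal τ) {t t' : ℝ} {F F' : Set Al} (ht : 1 / 2 + δ ≤ t) (htt : t < t')
    (hF : dimH (limitSet (Icc (0 : ℝ) 1) φ F) = ENNReal.ofReal t)
    (hF' : dimH (limitSet (Icc (0 : ℝ) 1) φ F') = ENNReal.ofReal t')
    (hc : ∀ j < k, cnt F j = cnt F' j) : t' - t ≤ 4 * τ := by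
  set s := t + (t' - t) / 4 with hs
  set s' := t' - (t' - t) / 4 with hs'
  have h1 : Pr F s ≤ 1 := by
    by_contra h
    rw [not_le] at h
    have h2 := le_dim (show 0 < s by linarith) h
    rw [hF, ENNReal.ofReal_le_ofReal_iff (by linarith)] at h2
    linarith
  have h2 : 1 < Pr F' s' := by
    by_contra h
    rw [not_lt] at h
    have h3 := dim_le (show 0 < s' by linarith) h
    rw [hF', ENNReal.ofReal_le_ofReal_iff (by linarith)] at h3
    linarith
  have h3 : hd (cnt F) k s ≤ 1 := by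
    rw [Pr_split F s k, hd_eq] at h1
    have := (le_add_of_nonneg_right zero_le).trans h1
    rwa [ENNReal.ofReal_le_one] at this
  have h4 : 1 < hd (cnt F') k s' + τ := by
    rw [Pr_split F' s' k, hd_eq] at h2
    have h5 : ∑' j, (cnt F' (j + k) : ℝ≥0∞) * ENNReal.ofReal (a (j + k) ^ s') ≤
        ENNReal.ofReal τ := by
      refine le_trans (ENNReal.tsum_le_tsum fun j => ?_) htail
      refine mul_le_mul' (by exact_mod_cast cnt_le F' _) (ENNReal.ofReal_le_ofReal ?_)
      apply Real.rpow_le_rpow_of_exponent_ge (a_pos _) ((a_le _).trans (by norm_num))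
      linarith
    have h6 := lt_of_lt_of_le h2 (add_le_add le_rfl h5)
    rw [← ENNReal.ofReal_add (hd_nonneg _ _ _) hτ0, ENNReal.one_lt_ofReal] at h6
    exact h6
  have h5 := hd_compare (cnt F) k (show s ≤ s' by linarith)
  rw [← hd_congr hc] at h4
  have h6 : s' - s = (t' - t) / 2 := by rw [hs, hs']; ring
  rw [h6] at h5
  have h7 : (4 : ℝ) ^ ((t' - t) / 2) = Real.exp ((t' - t) * Real.log 2) := by
    rw [show (4 : ℝ) = 2 ^ (2 : ℝ) by norm_num, ← Real.rpow_mul (by norm_num),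
      Real.rpow_def_of_pos (by norm_num)]
    congr 1
    ring
  have h8 := Real.add_one_le_exp ((t' - t) * Real.log 2)
  have h9 := Real.log_two_gt_d9
  have h10 := hd_nonneg (cnt F) k s'
  rw [h7] at h5
  have h11 : ((t' - t) / 2 + 1) * (1 - τ) ≤ 1 := by
    calc ((t' - t) / 2 + 1) * (1 - τ) ≤ Real.exp ((t' - t) * Real.log 2) * (1 - τ) := by
          apply mul_le_mul_of_nonneg_right _ (by linarith)
          nlinarith
      _ ≤ Real.exp ((t' - t) * Real.log 2) * hd (cnt F) k s' := by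
          apply mul_le_mul_of_nonneg_left _ (Real.exp_pos _).le
          linarith
      _ ≤ 1 := h5.trans h3
  nlinarith

lemma prod_m (k : ℕ) : ∏ j ∈ Finset.range k, (m j : ℝ) = 2 ^ L k := by
  induction k with
  | zero => rw [L_zero]; simp
  | succ k ih =>
    rw [Finset.prod_range_succ, ih, m_cast]
    field_simp

lemma card_le (k : ℕ) : (Fintype.card ((j : Fin k) → Fin (m j + 1)) : ℝ) ≤ 2 ^ (k + L k) := by
  have h0 : Fintype.card ((j : Fin k) → Fin (m j + 1)) = ∏ j ∈ Finset.range k, (m j + 1) := by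
    rw [Fintype.card_pi, ← Fin.prod_univ_eq_prod_range (fun j => m j + 1) k]
    exact Finset.prod_congr rfl fun j _ => Fintype.card_fin _
  rw [h0, Nat.cast_prod]
  push_cast
  calc ∏ j ∈ Finset.range k, ((m j : ℝ) + 1) ≤ ∏ j ∈ Finset.range k, (2 * (m j : ℝ)) := by
        apply Finset.prod_le_prod (fun j _ => by positivity) fun j _ => ?_
        have : (1 : ℝ) ≤ m j := by exact_mod_cast m_pos j
        linarith
    _ = 2 ^ (k + L k) := by
        rw [Finset.prod_mul_distrib, prod_m, Finset.prod_const, Finset.card_range, pow_add]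

/-- Above `1/2` the spectrum has dimension zero. -/
lemma dim_above {δ : ℝ} (hδ : 0 < δ) :
    dimH (spectrum (Icc (0 : ℝ) 1) φ ∩ Ici (1 / 2 + δ)) = 0 := by
  set D := spectrum (Icc (0 : ℝ) 1) φ ∩ Ici (1 / 2 + δ) with hD
  obtain ⟨C, hC, htail⟩ := tail_le hδ
  have hch : ∀ t : D, ∃ F : Set Al,
      dimH (limitSet (Icc (0 : ℝ) 1) φ F) = ENNReal.ofReal t := fun t => by
    obtain ⟨-, F, -, hF⟩ := t.2.1
    exact ⟨F, hF⟩
  choose F hF using hch
  set τ : ℕ → ℝ := fun k => C * 2 ^ (-δ * (L (k + 1) : ℝ)) with hτ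
  have hτpos : ∀ k, 0 < τ k := fun k => by rw [hτ]; positivity
  have hτlim : Tendsto τ atTop (𝓝 0) := by
    have h1 : Tendsto (fun k : ℕ => C * ((2 : ℝ) ^ (-δ)) ^ k) atTop (𝓝 0) := by
      have h2 := (tendsto_pow_atTop_nhds_zero_of_lt_one (show (0 : ℝ) ≤ 2 ^ (-δ) by positivity)
        (Real.rpow_lt_one_of_one_lt_of_neg (by norm_num) (by linarith))).const_mul C
      rwa [mul_zero] at h2
    refine squeeze_zero (fun k => (hτpos k).le) (fun k => ?_) h1
    rw [hτ]
    apply mul_le_mul_of_nonneg_left _ hC.le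
    rw [← Real.rpow_natCast, ← Real.rpow_mul (by norm_num)]
    apply Real.rpow_le_rpow_of_exponent_le (by norm_num)
    have h1 := L_ge (k + 1)
    have h2 : (k : ℝ) ≤ L (k + 1) := by exact_mod_cast (by omega : k ≤ L (k + 1))
    nlinarith
  have key : ∀ s : ℝ, 0 < s → dimH D ≤ ENNReal.ofReal s := by
    intro s hs
    have hsets : ∀ k : ℕ, τ k ≤ 1 / 2 → ∀ c : (j : Fin k) → Fin (m j + 1),
        Metric.ediam {t : ℝ | ∃ h : t ∈ D, ∀ j : Fin k, cnt (F ⟨t, h⟩) j = c j} ≤
          ENNReal.ofReal (4 * τ k) := by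
      intro k hk c
      refine Metric.ediam_le ?_
      have hlt : ∀ t t' : ℝ, t < t' →
          (∃ h : t ∈ D, ∀ j : Fin k, cnt (F ⟨t, h⟩) j = c j) →
          (∃ h : t' ∈ D, ∀ j : Fin k, cnt (F ⟨t', h⟩) j = c j) →
          edist t t' ≤ ENNReal.ofReal (4 * τ k) := by
        rintro t t' htt ⟨h, hc⟩ ⟨h', hc'⟩
        rw [edist_dist, Real.dist_eq, abs_sub_comm, abs_of_pos (sub_pos.2 htt)]
        apply ENNReal.ofReal_le_ofReal
        refine close hδ hk (hτpos k).le (htail k) h.2 htt (hF ⟨t, h⟩) (hF ⟨t', h'⟩) ?_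
        intro j hj
        rw [hc ⟨j, hj⟩, hc' ⟨j, hj⟩]
      intro t ht t' ht'
      rcases lt_trichotomy t t' with h | h | h
      · exact hlt t t' h ht ht'
      · subst h; simp
      · rw [edist_comm]; exact hlt t' t h ht' ht
    have hμ : μH[s] D ≤ 0 := by
      have hr : Tendsto (fun k => ENNReal.ofReal (4 * τ k)) atTop (𝓝 0) := by
        have h1 := ENNReal.tendsto_ofReal (hτlim.const_mul 4)
        simpa using h1
      have hev : ∀ᶠ k in atTop, τ k ≤ 1 / 2 := by
        filter_upwards [hτlim.eventually (gt_mem_nhds (show (0 : ℝ) < 1 / 2 by norm_num))] with k hk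
        exact hk.le
      refine (Measure.hausdorffMeasure_le_liminf_sum s D (fun k => ENNReal.ofReal (4 * τ k)) hr
        (fun k (c : (j : Fin k) → Fin (m j + 1)) =>
          {t : ℝ | ∃ h : t ∈ D, ∀ j : Fin k, cnt (F ⟨t, h⟩) j = c j})
        (hev.mono fun k hk c => hsets k hk c) (Eventually.of_forall fun k t ht => ?_)).trans ?_
      · rw [mem_iUnion]
        refine ⟨fun j => ⟨cnt (F ⟨t, ht⟩) j, Nat.lt_succ_of_le (cnt_le _ _)⟩, ht, fun j => rfl⟩
      · have hlim : Tendsto (fun k : ℕ => ENNReal.ofReal ((4 * C) ^ s * (1 / 2) ^ k)) atTop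
            (𝓝 0) := by
          have h1 := (tendsto_pow_atTop_nhds_zero_of_lt_one (show (0 : ℝ) ≤ 1 / 2 by norm_num)
            (by norm_num)).const_mul ((4 * C) ^ s)
          rw [mul_zero] at h1
          simpa using ENNReal.tendsto_ofReal h1
        rw [← hlim.liminf_eq]
        obtain ⟨K, hK⟩ := exists_nat_gt (3 / (s * δ))
        refine liminf_le_liminf ?_
        filter_upwards [hev, eventually_ge_atTop K] with k hk hkK
        calc ∑ c : (j : Fin k) → Fin (m j + 1),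
              Metric.ediam {t : ℝ | ∃ h : t ∈ D, ∀ j : Fin k, cnt (F ⟨t, h⟩) j = c j} ^ s
            ≤ ∑ c : (j : Fin k) → Fin (m j + 1), ENNReal.ofReal (4 * τ k) ^ s :=
              Finset.sum_le_sum fun c _ => ENNReal.rpow_le_rpow (hsets k hk c) hs.le
          _ = (Fintype.card ((j : Fin k) → Fin (m j + 1)) : ℝ≥0∞) *
                ENNReal.ofReal (4 * τ k) ^ s := by
              rw [Finset.sum_const, Finset.card_univ, nsmul_eq_mul]
          _ ≤ ENNReal.ofReal (2 ^ (k + L k)) * ENNReal.ofReal ((4 * τ k) ^ s) := by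
              refine mul_le_mul' ?_ ?_
              · rw [← ENNReal.ofReal_natCast]
                exact ENNReal.ofReal_le_ofReal (card_le k)
              · rw [ENNReal.ofReal_rpow_of_nonneg (by have := hτpos k; positivity) hs.le]
          _ = ENNReal.ofReal (2 ^ (k + L k) * (4 * τ k) ^ s) :=
              (ENNReal.ofReal_mul (by positivity)).symm
          _ ≤ ENNReal.ofReal ((4 * C) ^ s * (1 / 2) ^ k) := by
              apply ENNReal.ofReal_le_ofReal
              have e1 : 4 * τ k = (4 * C) * 2 ^ (-δ * (L (k + 1) : ℝ)) := by rw [hτ]; ring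
              rw [e1, Real.mul_rpow (by positivity) (by positivity), ← Real.rpow_mul (by norm_num),
                mul_comm, mul_assoc]
              apply mul_le_mul_of_nonneg_left _ (by positivity)
              rw [← Real.rpow_natCast 2, ← Real.rpow_add (by norm_num), one_div, inv_pow,
                ← Real.rpow_natCast, ← Real.rpow_neg (by norm_num)]
              apply Real.rpow_le_rpow_of_exponent_le (by norm_num)
              have g1 := L_ge k
              have g2 := L_succ_ge k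
              have g3 : (2 * (k : ℝ)) ≤ L k := by exact_mod_cast g1
              have g4 : (k : ℝ) * L k ≤ L (k + 1) := by exact_mod_cast g2
              have g5 : 3 / (s * δ) < k := lt_of_lt_of_le hK (by exact_mod_cast hkK)
              rw [div_lt_iff₀ (by positivity)] at g5
              have g6 : (0 : ℝ) ≤ L k := by positivity
              have g7 : 3 * (L k : ℝ) ≤ k * (s * δ) * L k :=
                mul_le_mul_of_nonneg_right g5.le g6
              have g8 : k * (s * δ) * L k ≤ (s * δ) * L (k + 1) := by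
                calc k * (s * δ) * L k = (s * δ) * (k * L k) := by ring
                  _ ≤ _ := mul_le_mul_of_nonneg_left g4 (by positivity)
              push_cast
              have g9 : (0 : ℝ) ≤ k := by positivity
              nlinarith
    have h5 : μH[((Real.toNNReal s : ℝ≥0) : ℝ)] D ≠ ⊤ := by
      rw [Real.coe_toNNReal s hs.le]
      exact ne_top_of_le_ne_top ENNReal.zero_ne_top hμ
    exact dimH_le_of_hausdorffMeasure_ne_top h5
  refine le_antisymm (le_of_forall_gt_imp_ge_of_dense fun t ht => ?_) zero_le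
  by_cases htop : t = ⊤
  · rw [htop]; exact le_top
  · have h1 := key t.toReal (ENNReal.toReal_pos ht.ne' htop)
    rwa [ENNReal.ofReal_toReal htop] at h1

/-! ### Local dimensions -/

lemma localDim_above {x : ℝ} (hx : 1 / 2 < x) :
    localDim (spectrum (Icc (0 : ℝ) 1) φ) x = 0 := by
  refine le_antisymm ?_ zero_le
  unfold localDim
  refine (iInf₂_le ((x - 1 / 2) / 2) (by linarith)).trans ?_
  rw [← dim_above (show 0 < (x - 1 / 2) / 2 by linarith)]
  refine dimH_mono fun y hy => ⟨hy.1, ?_⟩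
  have h1 := hy.2
  rw [Metric.mem_closedBall, Real.dist_eq, abs_le] at h1
  rw [mem_Ici]
  linarith [h1.1]

lemma dim_Icc_one {x y : ℝ} (hxy : x < y) : dimH (Icc x y) = 1 := by
  rw [Real.dimH_of_nonempty_interior (by rw [interior_Icc]; exact nonempty_Ioo.2 hxy)]
  simp

lemma localDim_half : 1 ≤ localDim (spectrum (Icc (0 : ℝ) 1) φ) (1 / 2) := by
  unfold localDim
  refine le_iInf₂ fun ε hε => ?_
  have h1 : Icc (max (1 / 4) (1 / 2 - ε)) (1 / 2) ⊆
      spectrum (Icc (0 : ℝ) 1) φ ∩ Metric.closedBall (1 / 2) ε := by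
    intro y hy
    have h2 := le_max_left (1 / 4 : ℝ) (1 / 2 - ε)
    have h3 := le_max_right (1 / 4 : ℝ) (1 / 2 - ε)
    refine ⟨mem_spectrum_low (by linarith [hy.1]) hy.2, ?_⟩
    rw [Metric.mem_closedBall, Real.dist_eq, abs_le]
    constructor <;> linarith [hy.1, hy.2]
  rw [← dim_Icc_one (show max (1 / 4 : ℝ) (1 / 2 - ε) < 1 / 2 from
    max_lt (by norm_num) (by linarith))]
  exact dimH_mono h1

end Pool.Agent.V1190.SpecIFS
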